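import Mathlib

/-!
# Functions on elementary abelian 2-groups of the form `c · [x ∈ A] · i ^ q(x)`

`A` is an affine subspace (or empty) and `q` is a quadratic function on `A` with values in
`ZMod 4`. These are the amplitude functions of stabilizer states. The class is closed under
products, pullbacks along affine maps and sums over coordinates.
-/

set_option autoImplicit false
set_option linter.unusedSectionVars false

namespace Pool.Agent.P8H92.Stab

open Finset

/-- The powers of `i`. -/
noncomputable def e4 (k : ZMod 4) : ℂ := Complex.I ^ k.val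

lemma I_pow_mod (n : ℕ) : Complex.I ^ (n % 4) = Complex.I ^ n := by
  conv_rhs => rw [← Nat.div_add_mod n 4, pow_add, pow_mul, Complex.I_pow_four, one_pow, one_mul]

lemma e4_add (a b : ZMod 4) : e4 (a + b) = e4 a * e4 b := by
  unfold e4
  rw [ZMod.val_add, I_pow_mod, pow_add]

@[simp] lemma e4_zero : e4 0 = 1 := by simp [e4]

lemma e4_one : e4 1 = Complex.I := by
  have : (1 : ZMod 4).val = 1 := rfl
  simp [e4, this]

lemma e4_two : e4 2 = -1 := by
  have : (2 : ZMod 4) = 1 + 1 := rfl
  rw [this, e4_add, e4_one, Complex.I_mul_I]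

lemma e4_three : e4 3 = -Complex.I := by
  have : (3 : ZMod 4) = 2 + 1 := rfl
  rw [this, e4_add, e4_one, e4_two]; ring

lemma e4_ne (a : ZMod 4) : e4 a ≠ 0 := by
  unfold e4
  exact pow_ne_zero _ Complex.I_ne_zero

variable {G H K : Type} [AddCommGroup G] [Module (ZMod 2) G] [AddCommGroup H] [Module (ZMod 2) H]
  [AddCommGroup K] [Module (ZMod 2) K]

/-- Affine maps between elementary abelian 2-groups. -/
def Aff (g : H → G) : Prop := ∀ x y z, g (x + y + z) = g x + g y + g z

/-- `A` is an affine subspace or empty, and `q` is quadratic on `A`. -/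
structure NF (A : Set G) (q : G → ZMod 4) : Prop where
  add : ∀ a ∈ A, ∀ b ∈ A, ∀ c ∈ A, a + b + c ∈ A
  quad : ∀ a ∈ A, ∀ b ∈ A, ∀ c ∈ A, ∀ d ∈ A,
    q (b + c + d) + q b + q c + q d = q (a + b + c) + q (a + c + d) + q (a + b + d) + q a

/-- The functions `c · [x ∈ A] · i ^ q(x)`. -/
def S (f : G → ℂ) : Prop :=
  ∃ (c : ℂ) (A : Set G) (q : G → ZMod 4), NF A q ∧ (∀ x ∈ A, f x = c * e4 (q x)) ∧
    ∀ x ∉ A, f x = 0

lemma S.congr {f g : G → ℂ} (hf : S f) (h : ∀ x, g x = f x) : S g := by
  have : g = f := funext h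
  rwa [this]

lemma S.mul {f g : G → ℂ} (hf : S f) (hg : S g) : S (fun x => f x * g x) := by
  obtain ⟨c, A, q, h1, h2, h3⟩ := hf
  obtain ⟨c', A', q', h1', h2', h3'⟩ := hg
  refine ⟨c * c', A ∩ A', fun x => q x + q' x, ⟨?_, ?_⟩, ?_, ?_⟩
  · intro a ha b hb d hd
    exact ⟨h1.add a ha.1 b hb.1 d hd.1, h1'.add a ha.2 b hb.2 d hd.2⟩
  · intro a ha b hb e he d hd
    have e1 := h1.quad a ha.1 b hb.1 e he.1 d hd.1
    have e2 := h1'.quad a ha.2 b hb.2 e he.2 d hd.2
    linear_combination e1 + e2
  · intro x hx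
    simp only
    rw [h2 x hx.1, h2' x hx.2, e4_add]
    ring
  · intro x hx
    simp only
    by_cases h : x ∈ A
    · have : x ∉ A' := fun h' => hx ⟨h, h'⟩
      rw [h3' x this, mul_zero]
    · rw [h3 x h, zero_mul]

lemma S.const (c : ℂ) : S (fun _ : G => c) :=
  ⟨c, Set.univ, fun _ => 0, ⟨fun _ _ _ _ _ _ => trivial, fun _ _ _ _ _ _ _ _ => rfl⟩,
    fun x _ => by simp, fun x hx => absurd trivial hx⟩

lemma S.smul {f : G → ℂ} (hf : S f) (c : ℂ) : S (fun x => c * f x) :=
  (S.const c).mul hf

lemma S.comp {f : G → ℂ} (hf : S f) {g : H → G} (hg : Aff g) : S (fun x => f (g x)) := by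
  obtain ⟨c, A, q, h1, h2, h3⟩ := hf
  refine ⟨c, g ⁻¹' A, fun x => q (g x), ⟨?_, ?_⟩, ?_, ?_⟩
  · intro a ha b hb d hd
    simp only [Set.mem_preimage] at *
    rw [hg]
    exact h1.add _ ha _ hb _ hd
  · intro a ha b hb e he d hd
    simp only [Set.mem_preimage] at *
    simp only [hg _ _ _]
    exact h1.quad _ ha _ hb _ he _ hd
  · intro x hx
    exact h2 _ hx
  · intro x hx
    exact h3 _ hx

open Classical in
/-- Indicator functions of affine subspaces. -/
lemma S.ind {A : Set G} (hA : ∀ a ∈ A, ∀ b ∈ A, ∀ c ∈ A, a + b + c ∈ A) :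
    S (fun x => if x ∈ A then (1 : ℂ) else 0) :=
  ⟨1, A, fun _ => 0, ⟨hA, fun _ _ _ _ _ _ _ _ => rfl⟩, fun x hx => by simp [hx],
    fun x hx => by simp [hx]⟩

lemma add3 (x : G) : x + x + x = x := by
  rw [ZModModule.add_self, zero_add]

lemma add3' (x y : G) : x + y + x = y := by
  rw [add_comm x y, add_assoc, ZModModule.add_self, add_zero]

lemma add3'' (x y : G) : x + (x + y) = y := by
  rw [← add_assoc, ZModModule.add_self, zero_add]

/-- Sums over one coordinate. -/
lemma S.marg {f : G × ZMod 2 → ℂ} (hf : S f) : S (fun x => f (x, 0) + f (x, 1)) := by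
  classical
  obtain ⟨c, A, q, h1, h2, h3⟩ := hf
  have hone : (1 : ZMod 2) + 1 = 0 := rfl
  by_cases h : ∃ x0, (x0, (0 : ZMod 2)) ∈ A ∧ (x0, (1 : ZMod 2)) ∈ A
  · obtain ⟨x0, hx0, hx1⟩ := h
    have k1 : ∀ x, (x, (0 : ZMod 2)) ∈ A → (x, (1 : ZMod 2)) ∈ A := by
      intro x hx
      have := h1.add _ hx _ hx0 _ hx1
      have e : ((x, 0) + (x0, 0) + (x0, 1) : G × ZMod 2) = (x, 1) := by
        ext
        · simp [add_assoc, ZModModule.add_self]
        · simp
      rwa [e] at this
    have k2 : ∀ x, (x, (1 : ZMod 2)) ∈ A → (x, (0 : ZMod 2)) ∈ A := by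
      intro x hx
      have := h1.add _ hx _ hx0 _ hx1
      have e : ((x, 1) + (x0, 0) + (x0, 1) : G × ZMod 2) = (x, 0) := by
        ext
        · simp [add_assoc, ZModModule.add_self]
        · simp [hone]
      rwa [e] at this
    have hadd : ∀ x y z, (x, (0 : ZMod 2)) ∈ A → (y, (0 : ZMod 2)) ∈ A → (z, (0 : ZMod 2)) ∈ A →
        (x + y + z, (0 : ZMod 2)) ∈ A := by
      intro x y z hx hy hz
      have := h1.add _ hx _ hy _ hz
      simpa using this
    -- the difference
    have hD : ∀ x y z, (x, (0 : ZMod 2)) ∈ A → (y, (0 : ZMod 2)) ∈ A → (z, (0 : ZMod 2)) ∈ A →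
        (q (x + y + z, 1) - q (x + y + z, 0)) + (q (x, 1) - q (x, 0)) =
          (q (y, 1) - q (y, 0)) + (q (z, 1) - q (z, 0)) := by
      intro x y z hx hy hz
      have := h1.quad _ hx _ hy _ hz _ (k1 x hx)
      have e1 : ((y, 0) + (z, 0) + (x, 1) : G × ZMod 2) = (x + y + z, 1) := by
        ext
        · simp; abel
        · simp
      have e2 : ((x, 0) + (y, 0) + (z, 0) : G × ZMod 2) = (x + y + z, 0) := by
        ext <;> simp
      have e3 : ((x, 0) + (z, 0) + (x, 1) : G × ZMod 2) = (z, 1) := by
        ext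
        · simp [add3']
        · simp
      have e4 : ((x, 0) + (y, 0) + (x, 1) : G × ZMod 2) = (y, 1) := by
        ext
        · simp [add3']
        · simp
      rw [e1, e2, e3, e4] at this
      linear_combination this
    have hpar : ∀ x, (x, (0 : ZMod 2)) ∈ A →
        2 * (q (x, 1) - q (x, 0)) = 2 * (q (x0, 1) - q (x0, 0)) := by
      intro x hx
      have a1 := hD x x0 x0 hx hx0 hx0
      rw [add_assoc x, ZModModule.add_self, add_zero] at a1
      linear_combination a1
    by_cases hev : 2 * (q (x0, 1) - q (x0, 0)) = 0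
    · refine ⟨2 * c, {x | (x, (0 : ZMod 2)) ∈ A ∧ q (x, 1) - q (x, 0) = 0}, fun x => q (x, 0),
        ⟨?_, ?_⟩, ?_, ?_⟩
      · intro x hx y hy z hz
        refine ⟨hadd _ _ _ hx.1 hy.1 hz.1, ?_⟩
        have := hD x y z hx.1 hy.1 hz.1
        rw [hx.2, hy.2, hz.2] at this
        simpa using this
      · intro a ha b hb e he d hd
        have := h1.quad _ ha.1 _ hb.1 _ he.1 _ hd.1
        simpa using this
      · intro x hx
        simp only
        have e1 : q (x, 1) = q (x, 0) := sub_eq_zero.1 hx.2
        rw [h2 _ hx.1, h2 _ (k1 _ hx.1), e1]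
        ring
      · intro x hx
        simp only
        by_cases hxA : (x, (0 : ZMod 2)) ∈ A
        · have hne : q (x, 1) - q (x, 0) ≠ 0 := fun h => hx ⟨hxA, h⟩
          have h2' := hpar x hxA
          rw [hev] at h2'
          have : q (x, 1) - q (x, 0) = 2 := by
            generalize q (x, 1) - q (x, 0) = t at hne h2'
            revert t
            decide
          have e1 : q (x, 1) = q (x, 0) + 2 := by linear_combination this
          rw [h2 _ hxA, h2 _ (k1 _ hxA), e1, e4_add, e4_two]
          ring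
        · have hxA' : (x, (1 : ZMod 2)) ∉ A := fun h => hxA (k2 x h)
          rw [h3 _ hxA, h3 _ hxA', add_zero]
    · have hodd : ∀ x, (x, (0 : ZMod 2)) ∈ A →
          q (x, 1) - q (x, 0) = 1 ∨ q (x, 1) - q (x, 0) = 3 := by
        intro x hx
        have h2' := hpar x hx
        rw [← h2'] at hev
        generalize q (x, 1) - q (x, 0) = t at hev ⊢
        revert t
        decide
      let r : ZMod 4 → ZMod 4 := fun t => if t = 3 then 3 else 0
      refine ⟨c * (1 + Complex.I), {x | (x, (0 : ZMod 2)) ∈ A},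
        fun x => q (x, 0) + r (q (x, 1) - q (x, 0)), ⟨?_, ?_⟩, ?_, ?_⟩
      · intro x hx y hy z hz
        exact hadd _ _ _ hx hy hz
      · intro a ha b hb e he d hd
        have key := h1.quad _ ha _ hb _ he _ hd
        simp only [Prod.mk_add_mk, add_zero] at key
        have s1 := hD _ _ _ hb he hd
        have s2 := hD _ _ _ ha hb he
        have s3 := hD _ _ _ ha he hd
        have s4 := hD _ _ _ ha hb hd
        have o1 := hodd _ ha
        have o2 := hodd _ hb
        have o3 := hodd _ he
        have o4 := hodd _ hd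
        try simp only
        generalize q (a, 1) - q (a, 0) = ta at *
        generalize q (b, 1) - q (b, 0) = tb at *
        generalize q (e, 1) - q (e, 0) = te at *
        generalize q (d, 1) - q (d, 0) = td at *
        generalize q (b + e + d, 1) - q (b + e + d, 0) = u1 at *
        generalize q (a + b + e, 1) - q (a + b + e, 0) = u2 at *
        generalize q (a + e + d, 1) - q (a + e + d, 0) = u3 at *
        generalize q (a + b + d, 1) - q (a + b + d, 0) = u4 at *
        have g1 : u1 = te + td - tb := by linear_combination s1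
        have g2 : u2 = tb + te - ta := by linear_combination s2
        have g3 : u3 = te + td - ta := by linear_combination s3
        have g4 : u4 = tb + td - ta := by linear_combination s4
        have main : r u1 + r tb + r te + r td = r u2 + r u3 + r u4 + r ta := by
          rw [g1, g2, g3, g4]
          simp only [r]
          clear key s1 s2 s3 s4 g1 g2 g3 g4 hadd hD hpar hev hodd h1 h2 h3 k1 k2 hx0 hx1
          revert ta tb te td
          decide
        linear_combination key + main
      · intro x hx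
        simp only
        rw [h2 _ hx, h2 _ (k1 _ hx), e4_add]
        have e1 : q (x, 1) = q (x, 0) + (q (x, 1) - q (x, 0)) := by ring
        rw [e1, e4_add]
        have e2 : q (x, 0) + (q (x, 1) - q (x, 0)) - q (x, 0) = q (x, 1) - q (x, 0) := by ring
        rw [e2]
        rcases hodd x hx with h | h
        · rw [h]
          have : r 1 = 0 := by decide
          rw [this, e4_one, e4_zero]
          ring
        · rw [h]
          have : r 3 = 3 := by decide
          rw [this, e4_three]
          have hI := Complex.I_mul_I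
          linear_combination (c * e4 (q (x, 0))) * (hI)
      · intro x hx
        simp only
        have hxA : (x, (0 : ZMod 2)) ∉ A := hx
        have hxA' : (x, (1 : ZMod 2)) ∉ A := fun h => hxA (k2 x h)
        rw [h3 _ hxA, h3 _ hxA', add_zero]
  · push Not at h
    let Y : G → ZMod 2 := fun x => if (x, (1 : ZMod 2)) ∈ A then 1 else 0
    have hY : ∀ x, (x, (0 : ZMod 2)) ∈ A ∨ (x, (1 : ZMod 2)) ∈ A → (x, Y x) ∈ A := by
      intro x hx
      by_cases h' : (x, (1 : ZMod 2)) ∈ A
      · simp [Y, h']
      · simp only [Y, h', if_false]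
        tauto
    have huniq : ∀ x y, (x, y) ∈ A → Y x = y := by
      intro x y hxy
      have hy : y = 0 ∨ y = 1 := by
        clear hxy
        revert y
        decide
      rcases hy with rfl | rfl
      · have := h x hxy
        simp [Y, this]
      · simp [Y, hxy]
    have hsum : ∀ x y z, ((x, (0 : ZMod 2)) ∈ A ∨ (x, (1 : ZMod 2)) ∈ A) →
        ((y, (0 : ZMod 2)) ∈ A ∨ (y, (1 : ZMod 2)) ∈ A) →
        ((z, (0 : ZMod 2)) ∈ A ∨ (z, (1 : ZMod 2)) ∈ A) →
        (x + y + z, Y x + Y y + Y z) ∈ A := by
      intro x y z hx hy hz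
      exact h1.add _ (hY x hx) _ (hY y hy) _ (hY z hz)
    refine ⟨c, {x | (x, (0 : ZMod 2)) ∈ A ∨ (x, (1 : ZMod 2)) ∈ A}, fun x => q (x, Y x),
      ⟨?_, ?_⟩, ?_, ?_⟩
    · intro x hx y hy z hz
      have h4 := hsum x y z hx hy hz
      have h5 : Y x + Y y + Y z = 0 ∨ Y x + Y y + Y z = 1 := by
        generalize Y x + Y y + Y z = t
        revert t
        decide
      rcases h5 with h5 | h5
      · left; rwa [h5] at h4
      · right; rwa [h5] at h4
    · intro a ha b hb e he d hd
      have key := h1.quad _ (hY a ha) _ (hY b hb) _ (hY e he) _ (hY d hd)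
      simp only [Prod.mk_add_mk] at key
      try simp only
      rw [huniq _ _ (hsum b e d hb he hd), huniq _ _ (hsum a b e ha hb he),
        huniq _ _ (hsum a e d ha he hd), huniq _ _ (hsum a b d ha hb hd)]
      exact key
    · intro x hx
      simp only
      rcases hx with hx | hx
      · rw [h2 _ hx, h3 _ (h x hx), huniq _ _ hx, add_zero]
      · have hx' : (x, (0 : ZMod 2)) ∉ A := fun h' => h x h' hx
        rw [h2 _ hx, h3 _ hx', huniq _ _ hx, zero_add]
    · intro x hx
      simp only
      have a1 : (x, (0 : ZMod 2)) ∉ A := fun h' => hx (Or.inl h')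
      have a2 : (x, (1 : ZMod 2)) ∉ A := fun h' => hx (Or.inr h')
      rw [h3 _ a1, h3 _ a2, add_zero]

end Pool.Agent.P8H92.Stab
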