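import Pool.Agent.P8H92.Stab.A

/-!
# Sums over many coordinates, affine maps, signs
-/

set_option autoImplicit false
set_option linter.unusedSectionVars false

namespace Pool.Agent.P8H92.Stab

open Finset

variable {G H K : Type} [AddCommGroup G] [Module (ZMod 2) G] [AddCommGroup H] [Module (ZMod 2) H]
  [AddCommGroup K] [Module (ZMod 2) K]

/-! ### affine maps -/

lemma Aff.const (a : G) : Aff (fun _ : H => a) := fun _ _ _ => (add3 a).symm

lemma Aff.id : Aff (fun x : G => x) := fun _ _ _ => rfl

lemma Aff.add {f g : H → G} (hf : Aff f) (hg : Aff g) : Aff (fun x => f x + g x) := by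
  intro x y z
  simp only
  rw [hf, hg]
  abel

lemma Aff.comp {f : H → G} {g : K → H} (hf : Aff f) (hg : Aff g) : Aff (fun x => f (g x)) := by
  intro x y z
  simp only
  rw [hg, hf]

lemma Aff.fst : Aff (fun x : G × H => x.1) := fun _ _ _ => rfl

lemma Aff.snd : Aff (fun x : G × H => x.2) := fun _ _ _ => rfl

lemma Aff.prod {f : K → G} {g : K → H} (hf : Aff f) (hg : Aff g) :
    Aff (fun x => (f x, g x)) := by
  intro x y z
  simp only
  rw [hf, hg]
  rfl

lemma Aff.pi {ι : Type} {f : K → ι → ZMod 2} (hf : ∀ i, Aff (fun x => f x i)) : Aff f := by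
  intro x y z
  funext i
  exact hf i x y z

lemma Aff.apply {ι : Type} {f : K → ι → ZMod 2} (hf : Aff f) (i : ι) : Aff (fun x => f x i) := by
  intro x y z
  simp only
  rw [hf]
  rfl

lemma Aff.sum {ι : Type} (s : Finset ι) {f : ι → K → G} (hf : ∀ i ∈ s, Aff (f i)) :
    Aff (fun x => ∑ i ∈ s, f i x) := by
  intro x y z
  simp only
  rw [← Finset.sum_add_distrib, ← Finset.sum_add_distrib]
  exact Finset.sum_congr rfl fun i hi => hf i hi x y z

lemma Aff.reindex {ι κ : Type} (e : ι → κ) : Aff (fun x : κ → ZMod 2 => fun i => x (e i)) :=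
  fun _ _ _ => rfl

/-! ### sums -/

open Classical in
/-- Sums over finitely many coordinates. -/
lemma S.margPi' (ι : Type) [Fintype ι] : ∀ {f : G × (ι → ZMod 2) → ℂ}, S f →
    S (fun x => ∑ z : ι → ZMod 2, f (x, z)) := by
  refine Fintype.induction_empty_option
    (P := fun ι _ => ∀ {f : G × (ι → ZMod 2) → ℂ}, S f → S (fun x => ∑ z, f (x, z)))
    ?_ ?_ ?_ ι
  · intro α β _ e ih f hf
    let _ : Fintype α := Fintype.ofEquiv β e.symm
    have h1 : S (fun p : G × (α → ZMod 2) => f (p.1, fun b => p.2 (e.symm b))) :=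
      hf.comp (Aff.prod Aff.fst ((Aff.reindex e.symm).comp Aff.snd))
    refine (ih h1).congr fun x => ?_
    simp only
    symm
    refine Fintype.sum_equiv (Equiv.arrowCongr e (Equiv.refl _)) _ _ fun z => ?_
    rfl
  · intro f hf
    have h1 : S (fun x : G => f (x, PEmpty.elim)) :=
      hf.comp (Aff.prod Aff.id (Aff.const _))
    refine h1.congr fun x => ?_
    rw [Fintype.sum_unique]
    congr 2
    exact Subsingleton.elim _ _
  · intro α _ ih f hf
    let m : (G × (α → ZMod 2)) × ZMod 2 → G × (Option α → ZMod 2) :=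
      fun p => (p.1.1, fun o => o.elim p.2 p.1.2)
    have hm : Aff m := by
      refine Aff.prod (Aff.fst.comp Aff.fst) (Aff.pi fun o => ?_)
      cases o with
      | none => exact Aff.snd
      | some a => exact (Aff.snd.comp Aff.fst).apply a
    have h1 := (hf.comp hm).marg
    refine (ih h1).congr fun x => ?_
    simp only [m]
    refine (Finset.sum_congr (s₂ := Finset.univ) (by ext; simp) fun _ _ => rfl).trans ?_
    refine (Fintype.sum_equiv (Equiv.piOptionEquivProd (β := fun _ : Option α => ZMod 2))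
      (fun z => f (x, z)) (fun p => f (x, fun o => o.elim p.1 p.2)) (by
        intro z
        congr 2
        funext o
        cases o <;> rfl)).trans ?_
    rw [Fintype.sum_prod_type_right]
    refine Finset.sum_congr rfl fun z _ => ?_
    have : (Finset.univ : Finset (ZMod 2)) = {0, 1} := by decide
    rw [this, Finset.sum_pair (by decide)]

/-- Sums over finitely many coordinates. -/
lemma S.margPi (ι : Type) [Finite ι] [inst : Fintype (ι → ZMod 2)] {f : G × (ι → ZMod 2) → ℂ}
    (hf : S f) : S (fun x => ∑ z : ι → ZMod 2, f (x, z)) := by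
  classical
  have _ : Fintype ι := Fintype.ofFinite ι
  have h := S.margPi' ι hf
  refine h.congr fun x => ?_
  refine Finset.sum_congr ?_ fun _ _ => rfl
  ext z
  simp

/-! ### signs -/

/-- Quadratic functions with values in `ZMod 2`. -/
def Quad (b : G → ZMod 2) : Prop :=
  ∀ x y z w, b (y + z + w) + b y + b z + b w = b (x + y + z) + b (x + z + w) + b (x + y + w) + b x

/-- The sign `(-1)^t`. -/
noncomputable def sg (t : ZMod 2) : ℂ := if t = 0 then 1 else -1

lemma sg_add (a b : ZMod 2) : sg (a + b) = sg a * sg b := by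
  have h0 : ∀ t : ZMod 2, t = 0 ∨ t = 1 := by decide
  have h11 : (1 : ZMod 2) + 1 = 0 := rfl
  rcases h0 a with rfl | rfl <;> rcases h0 b with rfl | rfl <;> simp [sg, h11]

@[simp] lemma sg_zero : sg 0 = 1 := by simp [sg]

@[simp] lemma sg_one : sg 1 = -1 := by simp [sg]

lemma sg_sq (a : ZMod 2) : sg a * sg a = 1 := by
  have h0 : ∀ t : ZMod 2, t = 0 ∨ t = 1 := by decide
  rcases h0 a with rfl | rfl <;> simp [sg]

lemma Quad.mul {a b : G → ZMod 2} (ha : Aff a) (hb : Aff b) : Quad (fun x => a x * b x) := by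
  intro x y z w
  simp only [ha _ _ _, hb _ _ _]
  generalize a x = x1
  generalize a y = x2
  generalize a z = x3
  generalize a w = x4
  generalize b x = x5
  generalize b y = x6
  generalize b z = x7
  generalize b w = x8
  have h2 : (2 : ZMod 2) = 0 := rfl
  linear_combination (x2 * x6 + x3 * x7 + x4 * x8 - x2 * x6 - x3 * x7 - x4 * x8 - x1 * x5 * 2
    - x1 * x6 - x1 * x7 - x1 * x8 - x2 * x5 - x3 * x5 - x4 * x5) * h2

lemma Quad.add {a b : G → ZMod 2} (ha : Quad a) (hb : Quad b) : Quad (fun x => a x + b x) := by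
  intro x y z w
  simp only
  linear_combination ha x y z w + hb x y z w

lemma Quad.zero : Quad (fun _ : G => 0) := fun _ _ _ _ => rfl

lemma Quad.sum {ι : Type} (s : Finset ι) {f : ι → G → ZMod 2} (hf : ∀ i ∈ s, Quad (f i)) :
    Quad (fun x => ∑ i ∈ s, f i x) := by
  intro x y z w
  simp only
  simp only [← Finset.sum_add_distrib]
  exact Finset.sum_congr rfl fun i hi => hf i hi x y z w

/-- the embedding `ZMod 2 → ZMod 4`, `1 ↦ 2`. -/
def two4 (t : ZMod 2) : ZMod 4 := if t = 0 then 0 else 2

lemma two4_add (a b : ZMod 2) : two4 (a + b) = two4 a + two4 b := by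
  revert a b
  decide

lemma e4_two4 (t : ZMod 2) : e4 (two4 t) = sg t := by
  have h0 : ∀ t : ZMod 2, t = 0 ∨ t = 1 := by decide
  rcases h0 t with rfl | rfl
  · simp [two4, sg]
  · simp [two4, sg, e4_two]

lemma S.sign {b : G → ZMod 2} (hb : Quad b) : S (fun x => sg (b x)) := by
  refine ⟨1, Set.univ, fun x => two4 (b x), ⟨fun _ _ _ _ _ _ => trivial, ?_⟩, ?_, ?_⟩
  · intro x _ y _ z _ w _
    simp only [← two4_add]
    rw [hb x y z w]
  · intro x _
    rw [e4_two4, one_mul]
  · intro x hx
    exact absurd trivial hx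

lemma S.signAff {b : G → ZMod 2} (hb : Aff b) : S (fun x => sg (b x)) := by
  have h1 : Quad (fun x => b x * 1) := Quad.mul hb (Aff.const 1)
  simpa using S.sign h1

/-- The indicator function of a point condition for an affine map. -/
lemma S.eq [DecidableEq H] {f : G → H} (hf : Aff f) (a : H) :
    S (fun x => if f x = a then (1 : ℂ) else 0) := by
  have := S.ind (A := {x | f x = a}) (by
    intro x hx y hy z hz
    simp only [Set.mem_ofPred_eq] at *
    rw [hf, hx, hy, hz, add3])
  refine this.congr fun x => ?_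
  by_cases h : f x = a <;> simp [h]

lemma S.eq' [DecidableEq H] {f g : G → H} (hf : Aff f) (hg : Aff g) :
    S (fun x => if f x = g x then (1 : ℂ) else 0) := by
  refine (S.eq (hf.add hg) 0).congr fun x => ?_
  by_cases h : f x = g x
  · simp [h, ZModModule.add_self]
  · have : f x + g x ≠ 0 := by
      intro h'
      apply h
      have h2 : f x = -g x := eq_neg_of_add_eq_zero_left h'
      rw [h2, ZModModule.neg_eq_self]
    simp [h, this]

end Pool.Agent.P8H92.Stab
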