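import Pool.Agent.P8H92.Stab.B

/-!
# Functions obtained from copies of the vector `e₀ + √2 e₁`

`C n f` says that `f` is the image of the `n`-th tensor power of `e₀ + √2 e₁` under a linear map
whose kernel function is in the class `S`. All signs `(-1)^F(x, y)` with `x, y ∈ (ZMod 2)^k` are
obtained with `66 · 2^k` copies.
-/

set_option autoImplicit false
set_option linter.unusedSectionVars false

namespace Pool.Agent.P8H92.Stab

open Finset

variable {G H K : Type} [AddCommGroup G] [Module (ZMod 2) G] [AddCommGroup H] [Module (ZMod 2) H]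
  [AddCommGroup K] [Module (ZMod 2) K]

/-- The number `√2`. -/
noncomputable def s2 : ℂ := (Real.sqrt 2 : ℝ)

lemma s2_sq : s2 * s2 = 2 := by
  unfold s2
  rw [← Complex.ofReal_mul, Real.mul_self_sqrt (by norm_num)]
  norm_num

lemma s2_ne : s2 ≠ 0 := by
  intro h
  have := s2_sq
  rw [h] at this
  norm_num at this

/-- The coordinates of `e₀ + √2 e₁`. -/
noncomputable def wt (t : ZMod 2) : ℂ := if t = 0 then 1 else s2

@[simp] lemma wt_zero : wt 0 = 1 := by simp [wt]

@[simp] lemma wt_one : wt 1 = s2 := by simp [wt]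

/-- `f` is the image of the `n`-th tensor power of `e₀ + √2 e₁` under a linear map with kernel in
the class `S`. -/
def C (n : ℕ) (f : G → ℂ) : Prop :=
  ∃ T : G × (Fin n → ZMod 2) → ℂ, S T ∧ ∀ x, f x = ∑ z, T (x, z) * ∏ i, wt (z i)

lemma C.congr {n : ℕ} {f g : G → ℂ} (hf : C n f) (h : ∀ x, g x = f x) : C n g := by
  have : g = f := funext h
  rwa [this]

lemma C.ofS (n : ℕ) {f : G → ℂ} (hf : S f) : C n f := by
  refine ⟨fun p => f p.1 * (if p.2 = 0 then 1 else 0),
    (hf.comp Aff.fst).mul (S.eq Aff.snd 0), fun x => ?_⟩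
  simp only
  rw [Finset.sum_eq_single 0]
  · simp
  · intro b _ hb
    simp [hb]
  · intro h
    exact absurd (Finset.mem_univ _) h

lemma C.mul {n m : ℕ} {f g : G → ℂ} (hf : C n f) (hg : C m g) : C (n + m) (fun x => f x * g x) := by
  obtain ⟨T1, h1, h2⟩ := hf
  obtain ⟨T2, h3, h4⟩ := hg
  refine ⟨fun p => T1 (p.1, fun i => p.2 (Fin.castAdd m i)) * T2 (p.1, fun i => p.2 (Fin.natAdd n i)),
    ?_, fun x => ?_⟩
  · refine (h1.comp (Aff.prod Aff.fst ?_)).mul (h3.comp (Aff.prod Aff.fst ?_))
    · exact (Aff.reindex _).comp Aff.snd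
    · exact (Aff.reindex _).comp Aff.snd
  · simp only
    rw [h2, h4, Finset.sum_mul_sum, ← Fintype.sum_prod_type', ← (Fin.appendEquiv n m).sum_comp]
    refine Finset.sum_congr rfl fun z _ => ?_
    rw [Fin.prod_univ_add]
    simp only [Fin.appendEquiv, Equiv.coe_fn_mk, Fin.append_left, Fin.append_right]
    ring

lemma C.mono {n m : ℕ} {f : G → ℂ} (hf : C n f) (h : n ≤ m) : C m f := by
  obtain ⟨k, rfl⟩ := Nat.exists_eq_add_of_le h
  refine (hf.mul (C.ofS k (S.const 1))).congr fun x => ?_
  simp

lemma C.comp {n : ℕ} {f : G → ℂ} (hf : C n f) {g : H → G} (hg : Aff g) :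
    C n (fun x => f (g x)) := by
  obtain ⟨T, h1, h2⟩ := hf
  exact ⟨fun p => T (g p.1, p.2), h1.comp (Aff.prod (hg.comp Aff.fst) Aff.snd), fun x => h2 (g x)⟩

lemma C.smul {n : ℕ} {f : G → ℂ} (hf : C n f) (c : ℂ) : C n (fun x => c * f x) := by
  obtain ⟨T, h1, h2⟩ := hf
  refine ⟨fun p => c * T p, h1.smul c, fun x => ?_⟩
  change c * f x = _
  rw [h2, Finset.mul_sum]
  exact Finset.sum_congr rfl fun z _ => by ring

lemma C.marg {n : ℕ} {f : G × ZMod 2 → ℂ} (hf : C n f) : C n (fun x => f (x, 0) + f (x, 1)) := by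
  obtain ⟨T, h1, h2⟩ := hf
  have h3 : S (fun p : (G × (Fin n → ZMod 2)) × ZMod 2 => T ((p.1.1, p.2), p.1.2)) :=
    h1.comp (Aff.prod (Aff.prod (Aff.fst.comp Aff.fst) Aff.snd) (Aff.snd.comp Aff.fst))
  refine ⟨_, h3.marg, fun x => ?_⟩
  simp only
  rw [h2, h2, ← Finset.sum_add_distrib]
  exact Finset.sum_congr rfl fun z _ => by ring

lemma C.margPi {n : ℕ} (ι : Type) [Finite ι] [Fintype (ι → ZMod 2)] {f : G × (ι → ZMod 2) → ℂ}
    (hf : C n f) : C n (fun x => ∑ y : ι → ZMod 2, f (x, y)) := by
  obtain ⟨T, h1, h2⟩ := hf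
  have h3 : S (fun p : (G × (Fin n → ZMod 2)) × (ι → ZMod 2) => T ((p.1.1, p.2), p.1.2)) :=
    h1.comp (Aff.prod (Aff.prod (Aff.fst.comp Aff.fst) Aff.snd) (Aff.snd.comp Aff.fst))
  refine ⟨_, h3.margPi ι, fun x => ?_⟩
  simp only
  simp only [h2]
  rw [Finset.sum_comm]
  exact Finset.sum_congr rfl fun z _ => by rw [Finset.sum_mul]

lemma C.prod {ι : Type} (s : Finset ι) {n : ℕ} {f : ι → G → ℂ} (h : ∀ i ∈ s, C n (f i)) :
    C (s.card * n) (fun x => ∏ i ∈ s, f i x) := by
  classical
  induction s using Finset.induction_on with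
  | empty =>
    refine (C.ofS _ (S.const 1)).congr fun x => ?_
    simp
  | insert a s ha ih =>
    have h1 := (h a (Finset.mem_insert_self _ _)).mul
      (ih fun i hi => h i (Finset.mem_insert_of_mem hi))
    refine (h1.mono (le_of_eq ?_)).congr fun x => ?_
    · rw [Finset.card_insert_of_notMem ha]
      ring
    · rw [Finset.prod_insert ha]

lemma C.wt {a : G → ZMod 2} (ha : Aff a) : C 1 (fun x => wt (a x)) := by
  refine ⟨fun p => if p.2 0 = a p.1 then 1 else 0,
    S.eq' (Aff.snd.apply 0) (ha.comp Aff.fst), fun x => ?_⟩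
  rw [Finset.sum_eq_single (fun _ => a x)]
  · simp
  · intro b _ hb
    have : b 0 ≠ a x := by
      intro h
      apply hb
      funext i
      rw [← h]
      congr
      exact Subsingleton.elim _ _
    simp [this]
  · intro h
    exact absurd (Finset.mem_univ _) h

/-- `0` if both arguments are `1`, and `1` otherwise. -/
noncomputable def nd (a b : ZMod 2) : ℂ := if a * b = 1 then 0 else 1

lemma zmod2_cases (t : ZMod 2) : t = 0 ∨ t = 1 := by
  revert t
  decide

lemma nd_formula (x y : ZMod 2) :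
    nd x y = (1 / (3 * s2 ^ 3)) *
      ((sg 0 * (Stab.wt (1 + 0) * Stab.wt (1 + 0) * Stab.wt (1 + 0) * Stab.wt (1 + 0) *
        Stab.wt x * Stab.wt y * Stab.wt 0 * Stab.wt (1 + x + y) * Stab.wt (1 + x + 0) *
        Stab.wt (1 + y + 0) * Stab.wt (x + y + 0))) +
      (sg 1 * (Stab.wt (1 + 1) * Stab.wt (1 + 1) * Stab.wt (1 + 1) * Stab.wt (1 + 1) *
        Stab.wt x * Stab.wt y * Stab.wt 1 * Stab.wt (1 + x + y) * Stab.wt (1 + x + 1) *
        Stab.wt (1 + y + 1) * Stab.wt (x + y + 1)))) := by
  have h2 : (1 : ZMod 2) + 1 = 0 := rfl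
  have hs := s2_sq
  have hne := s2_ne
  have h4 : s2 ^ 4 = 4 := by
    have : s2 ^ 4 = (s2 * s2) * (s2 * s2) := by ring
    rw [this, hs]
    norm_num
  rcases zmod2_cases x with rfl | rfl <;> rcases zmod2_cases y with rfl | rfl <;>
    simp only [h2, nd, add_zero, zero_add, wt_zero, wt_one, sg_zero, sg_one, mul_one, one_mul,
      mul_zero, if_true, zero_ne_one, if_false]
  · field_simp
    linear_combination (-1 : ℂ) * h4
  · field_simp
    linear_combination (-1 : ℂ) * h4
  · field_simp
    linear_combination (-1 : ℂ) * h4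
  · field_simp
    ring

lemma C.nd {a b : G → ZMod 2} (ha : Aff a) (hb : Aff b) : C 11 (fun x => nd (a x) (b x)) := by
  have a1 : Aff (fun p : G × ZMod 2 => a p.1) := ha.comp Aff.fst
  have b1 : Aff (fun p : G × ZMod 2 => b p.1) := hb.comp Aff.fst
  have w1 : Aff (fun p : G × ZMod 2 => p.2) := Aff.snd
  have o1 : Aff (fun _ : G × ZMod 2 => (1 : ZMod 2)) := Aff.const 1
  have h := (((((((((((C.wt (o1.add w1)).mul (C.wt (o1.add w1))).mul (C.wt (o1.add w1))).mul
    (C.wt (o1.add w1))).mul (C.wt a1)).mul (C.wt b1)).mul (C.wt w1)).mul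
    (C.wt ((o1.add a1).add b1))).mul (C.wt ((o1.add a1).add w1))).mul
    (C.wt ((o1.add b1).add w1))).mul (C.wt ((a1.add b1).add w1)))
  have h' := ((C.ofS 0 (S.signAff w1)).mul h).marg.smul (1 / (3 * s2 ^ 3))
  refine (h'.mono (by norm_num)).congr fun x => ?_
  exact nd_formula (a x) (b x)

/-- `1` if `c = a b` and `0` otherwise. -/
noncomputable def t3 (a b c : ZMod 2) : ℂ := if c = a * b then 1 else 0

lemma t3_formula (a b c : ZMod 2) :
    t3 a b c = Stab.nd c (1 + a) * Stab.nd c (1 + b) * Stab.nd (a + c) (b + c) := by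
  have h2 : (1 : ZMod 2) + 1 = 0 := rfl
  rcases zmod2_cases a with rfl | rfl <;> rcases zmod2_cases b with rfl | rfl <;>
    rcases zmod2_cases c with rfl | rfl <;> simp [t3, Stab.nd, h2]

lemma C.t3 {a b c : G → ZMod 2} (ha : Aff a) (hb : Aff b) (hc : Aff c) :
    C 33 (fun x => t3 (a x) (b x) (c x)) := by
  have o1 : Aff (fun _ : G => (1 : ZMod 2)) := Aff.const 1
  have h := ((C.nd hc (o1.add ha)).mul (C.nd hc (o1.add hb))).mul (C.nd (ha.add hc) (hb.add hc))
  exact h.congr fun x => t3_formula _ _ _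

/-- The number of copies used for the unary encoding of `k` bits. -/
def cost : ℕ → ℕ
  | 0 => 0
  | k + 1 => cost k + 2 ^ k * 33

lemma cost_le (k : ℕ) : cost k + 33 = 33 * 2 ^ k := by
  induction k with
  | zero => rfl
  | succ k ih =>
    rw [cost, pow_succ]
    linarith

/-- The unary encoding of `k` bits. -/
lemma C.enc : ∀ (k : ℕ) {G : Type} [AddCommGroup G] [Module (ZMod 2) G]
    {x : G → (Fin k → ZMod 2)} {u : G → ((Fin k → ZMod 2) → ZMod 2)}, Aff x → Aff u →
    C (cost k) (fun g => if u g = Pi.single (x g) 1 then (1 : ℂ) else 0) := by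
  intro k
  induction k with
  | zero =>
    intro G _ _ x u hx hu
    refine (C.ofS _ (S.eq (hu.apply (0 : Fin 0 → ZMod 2)) 1)).congr fun g => ?_
    have : (u g = Pi.single (x g) 1) ↔ (u g 0 = 1) := by
      constructor
      · intro h
        rw [h]
        have e : x g = 0 := Subsingleton.elim _ _
        rw [e, Pi.single_eq_same]
      · intro h
        funext a
        have e : a = 0 := Subsingleton.elim _ _
        have e' : x g = 0 := Subsingleton.elim _ _
        rw [e, e', Pi.single_eq_same, h]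
    by_cases h : u g = Pi.single (x g) 1
    · rw [if_pos h, if_pos (this.1 h)]
    · rw [if_neg h, if_neg (fun h' => h (this.2 h'))]
  | succ k ih =>
    intro G _ _ x u hx hu
    let x' : G → (Fin k → ZMod 2) := fun g i => x g i.succ
    let u' : G → ((Fin k → ZMod 2) → ZMod 2) := fun g a => u g (Fin.cons 0 a) + u g (Fin.cons 1 a)
    have hx' : Aff x' := (Aff.reindex Fin.succ).comp hx
    have hu' : Aff u' := Aff.pi fun a => (hu.apply _).add (hu.apply _)
    have h1 := ih hx' hu'
    have h2 := C.prod (Finset.univ : Finset (Fin k → ZMod 2)) (n := 33)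
      (f := fun a g => Stab.t3 (x g 0) (u' g a) (u g (Fin.cons 1 a)))
      (fun a _ => C.t3 (hx.apply 0) (hu'.apply a) (hu.apply _))
    refine ((h1.mul h2).mono (le_of_eq ?_)).congr fun g => ?_
    · rw [cost]
      simp
    · have key : (u g = Pi.single (x g) 1) ↔ (u' g = Pi.single (x' g) 1 ∧
          ∀ a : Fin k → ZMod 2, u g (Fin.cons 1 a) = x g 0 * u' g a) := by
        have hcons : x g = Fin.cons (x g 0) (x' g) := by
          funext i
          refine Fin.cases ?_ (fun i => ?_) i
          · rfl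
          · rfl
        have h11 : (1 : ZMod 2) + 1 = 0 := rfl
        constructor
        · intro h
          have hval : ∀ (b : ZMod 2) (a : Fin k → ZMod 2),
              u g (Fin.cons b a) = if b = x g 0 ∧ a = x' g then 1 else 0 := by
            intro b a
            rw [h, Pi.single_apply]
            refine if_congr ?_ rfl rfl
            rw [hcons, Fin.cons_inj]
            simp
          have hu'v : u' g = Pi.single (x' g) 1 := by
            funext a
            rw [Pi.single_apply]
            simp only [u']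
            rw [hval, hval]
            rcases zmod2_cases (x g 0) with h0 | h0 <;> rw [h0] <;> simp
          refine ⟨hu'v, fun a => ?_⟩
          rw [hval, hu'v, Pi.single_apply]
          rcases zmod2_cases (x g 0) with h0 | h0 <;> rw [h0] <;> simp
        · rintro ⟨ha, hb⟩
          funext a
          obtain ⟨b, a', rfl⟩ : ∃ b a', a = Fin.cons b a' := ⟨a 0, Fin.tail a, (Fin.cons_self_tail a).symm⟩
          have e1 : u g (Fin.cons 0 a') = (1 + x g 0) * u' g a' := by
            have e2 : u g (Fin.cons 0 a') + u g (Fin.cons 1 a') = u' g a' := rfl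
            have e3 := hb a'
            have e4 : u g (Fin.cons 0 a') = u' g a' - u g (Fin.cons 1 a') := by
              rw [← e2]; ring
            rw [e4, e3]
            have e5 : (-1 : ZMod 2) = 1 := rfl
            linear_combination (x g 0 * u' g a') * e5
          rw [Pi.single_apply]
          have e6 : ((Fin.cons b a' : Fin (k + 1) → ZMod 2) = x g) ↔ (b = x g 0 ∧ a' = x' g) := by
            rw [hcons, Fin.cons_inj]
            simp
          rw [if_congr e6 rfl rfl]
          rcases zmod2_cases b with rfl | rfl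
          · rw [e1, ha, Pi.single_apply]
            rcases zmod2_cases (x g 0) with h0 | h0 <;> rw [h0] <;> simp [h11]
          · rw [hb, ha, Pi.single_apply]
            rcases zmod2_cases (x g 0) with h0 | h0 <;> rw [h0] <;> simp
      have hprod : (∏ a : Fin k → ZMod 2, Stab.t3 (x g 0) (u' g a) (u g (Fin.cons 1 a))) =
          if (∀ a : Fin k → ZMod 2, u g (Fin.cons 1 a) = x g 0 * u' g a) then (1 : ℂ) else 0 := by
        split_ifs with h
        · exact Finset.prod_eq_one fun a _ => by simp [Stab.t3, h a]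
        · push Not at h
          obtain ⟨a, ha⟩ := h
          exact Finset.prod_eq_zero (Finset.mem_univ a) (by simp [Stab.t3, ha])
      rw [hprod]
      by_cases hA : u' g = Pi.single (x' g) 1
      · by_cases hB : ∀ a : Fin k → ZMod 2, u g (Fin.cons 1 a) = x g 0 * u' g a
        · rw [if_pos (key.2 ⟨hA, hB⟩), if_pos hA, if_pos hB, mul_one]
        · rw [if_neg (fun h => hB (key.1 h).2), if_neg hB, mul_zero]
      · rw [if_neg (fun h => hA (key.1 h).1), if_neg hA, zero_mul]

/-- All signs of functions of `2 k` bits. -/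
lemma C.signs (k : ℕ) (F : (Fin k → ZMod 2) → (Fin k → ZMod 2) → ZMod 2) :
    C (cost k + cost k) (fun p : (Fin k → ZMod 2) × (Fin k → ZMod 2) => sg (F p.1 p.2)) := by
  -- the variables are `((x, y), u), w`
  let G2 := (((Fin k → ZMod 2) × (Fin k → ZMod 2)) × ((Fin k → ZMod 2) → ZMod 2)) ×
    ((Fin k → ZMod 2) → ZMod 2)
  have hx : Aff (fun p : G2 => p.1.1.1) := Aff.fst.comp (Aff.fst.comp Aff.fst)
  have hy : Aff (fun p : G2 => p.1.1.2) := Aff.snd.comp (Aff.fst.comp Aff.fst)
  have hu : Aff (fun p : G2 => p.1.2) := Aff.snd.comp Aff.fst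
  have hw : Aff (fun p : G2 => p.2) := Aff.snd
  have hq : Quad (fun p : G2 => ∑ a : Fin k → ZMod 2, ∑ b : Fin k → ZMod 2,
      (F a b * p.1.2 a) * p.2 b) := by
    refine Quad.sum _ fun a _ => Quad.sum _ fun b _ => Quad.mul ?_ (hw.apply b)
    intro x y z
    have := hu.apply a x y z
    simp only at this ⊢
    rw [this]
    ring
  have h := ((C.enc k hx hu).mul (C.enc k hy hw)).mul (C.ofS 0 (S.sign hq))
  have h' := (h.margPi ((Fin k → ZMod 2))).margPi ((Fin k → ZMod 2))
  refine h'.congr fun p => ?_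
  obtain ⟨x, y⟩ := p
  simp only
  rw [Finset.sum_eq_single (Pi.single x 1)]
  · rw [Finset.sum_eq_single (Pi.single y 1)]
    · rw [if_pos rfl, if_pos rfl, one_mul, one_mul]
      congr 1
      rw [Finset.sum_eq_single x]
      · rw [Finset.sum_eq_single y]
        · simp
        · intro b _ hb
          rw [Pi.single_eq_of_ne hb, mul_zero]
        · intro hb
          exact absurd (Finset.mem_univ _) hb
      · intro a _ ha
        refine Finset.sum_eq_zero fun b _ => ?_
        rw [Pi.single_eq_of_ne ha, mul_zero, zero_mul]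
      · intro hb
        exact absurd (Finset.mem_univ _) hb
    · intro w _ hw
      rw [if_neg hw, mul_zero, zero_mul]
    · intro hb
      exact absurd (Finset.mem_univ _) hb
  · intro u _ hu
    refine Finset.sum_eq_zero fun w _ => ?_
    rw [if_neg hu, zero_mul, zero_mul]
  · intro hb
    exact absurd (Finset.mem_univ _) hb

end Pool.Agent.P8H92.Stab
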