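import Pool.Agent.P8H92.Stab.C

/-!
# Counting

Up to scalars there are at most `2 ^ (m ^ 2 + 2 m)` functions of the class `S` on `(ZMod 2)^m`, and the
span of `r` functions contains at most `2 ^ r` functions with values `± 1`.
-/

set_option autoImplicit false
set_option linter.unusedSectionVars false

namespace Pool.Agent.P8H92.Stab

open Finset

variable {G H K : Type} [AddCommGroup G] [Module (ZMod 2) G] [AddCommGroup H] [Module (ZMod 2) H]
  [AddCommGroup K] [Module (ZMod 2) K]

/-- Up to scalars there are at most `N` functions of the class `S` on `G`. -/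
def Cnt (G : Type) [AddCommGroup G] (N : ℕ) : Prop :=
  ∃ 𝓕 : Finset (G → ℂ), 𝓕.card ≤ N ∧ ∀ f : G → ℂ, S f → ∃ g ∈ 𝓕, ∃ c : ℂ, ∀ x, f x = c * g x

lemma Cnt.transport {N : ℕ} (h : Cnt G N) (e : H → G) (e' : G → H) (_ : Aff e) (he' : Aff e')
    (h1 : ∀ x, e' (e x) = x) : Cnt H N := by
  classical
  obtain ⟨𝓕, h2, h3⟩ := h
  refine ⟨𝓕.image fun g x => g (e x), Finset.card_image_le.trans h2, fun f hf => ?_⟩
  obtain ⟨g, hg, c, hc⟩ := h3 _ (hf.comp he')
  refine ⟨_, Finset.mem_image_of_mem _ hg, c, fun x => ?_⟩
  rw [← hc, h1]

/-- The half of `0` and of `2`. -/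
def hf (t : ZMod 4) : ZMod 2 := if t = 2 then 1 else 0

lemma two4_hf (t : ZMod 4) (h : 2 * t = 0) : two4 (hf t) = t := by
  revert t
  decide

lemma hf_add (s t : ZMod 4) (h : 2 * s = 0) (h' : 2 * t = 0) : hf (s + t) = hf s + hf t := by
  revert s t
  decide

/-- The recursion for the number of functions. -/
lemma Cnt.step {m N : ℕ} (h : Cnt (Fin m → ZMod 2) N) :
    Cnt ((Fin m → ZMod 2) × ZMod 2) (N * 2 ^ (2 * m + 3)) := by
  classical
  obtain ⟨𝓕, hcard, hall⟩ := h
  let Φ : (Fin m → ZMod 2) × (Fin m → ZMod 2) × ZMod 4 → ((Fin m → ZMod 2) → ℂ) →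
      ((Fin m → ZMod 2) × ZMod 2 → ℂ) := fun t g p =>
    if p.2 = 0 then g p.1 else g (p.1 + t.1) * (e4 t.2.2 * sg (∑ i, t.2.1 i * p.1 i))
  let Φ0 : ((Fin m → ZMod 2) → ℂ) → ((Fin m → ZMod 2) × ZMod 2 → ℂ) := fun g p =>
    if p.2 = 0 then g p.1 else 0
  let Φ1 : ((Fin m → ZMod 2) → ℂ) → ((Fin m → ZMod 2) × ZMod 2 → ℂ) := fun g p =>
    if p.2 = 0 then 0 else g p.1
  refine ⟨𝓕.image Φ0 ∪ 𝓕.image Φ1 ∪ (Finset.univ ×ˢ 𝓕).image fun p => Φ p.1 p.2, ?_, ?_⟩
  · have c0 : (𝓕.image Φ0).card ≤ N := Finset.card_image_le.trans hcard
    have c1 : (𝓕.image Φ1).card ≤ N := Finset.card_image_le.trans hcard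
    have c2 : (((Finset.univ : Finset ((Fin m → ZMod 2) × (Fin m → ZMod 2) × ZMod 4)) ×ˢ 𝓕).image
        fun p => Φ p.1 p.2).card ≤ (2 ^ m * (2 ^ m * 4)) * N := by
      refine Finset.card_image_le.trans ?_
      rw [Finset.card_product]
      refine Nat.mul_le_mul ?_ hcard
      simp [Fintype.card_prod, ZMod.card]
    refine (Finset.card_union_le _ _).trans ?_
    refine (Nat.add_le_add (Finset.card_union_le _ _) le_rfl).trans ?_
    have e1 : 2 ^ (2 * m + 3) = 2 * (2 ^ m * (2 ^ m * 4)) := by
      rw [pow_add, two_mul, pow_add]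
      ring
    have e2 : 1 ≤ 2 ^ m * 2 ^ m := Nat.one_le_iff_ne_zero.2 (by positivity)
    calc (𝓕.image Φ0).card + (𝓕.image Φ1).card + _
        ≤ N + N + (2 ^ m * (2 ^ m * 4)) * N := Nat.add_le_add (Nat.add_le_add c0 c1) c2
      _ = N * (2 + 4 * (2 ^ m * 2 ^ m)) := by ring
      _ ≤ N * (2 * (2 ^ m * (2 ^ m * 4))) := by
          refine Nat.mul_le_mul le_rfl ?_
          nlinarith
      _ = N * 2 ^ (2 * m + 3) := by rw [e1]
  · intro f hfS
    have hS0 : S (fun x => f (x, 0)) := hfS.comp (Aff.prod Aff.id (Aff.const 0))
    have hS1 : S (fun x => f (x, 1)) := hfS.comp (Aff.prod Aff.id (Aff.const 1))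
    obtain ⟨c, A, q, h1, h2, h3⟩ := hfS
    have hz : ∀ t : ZMod 2, t ≠ 0 → t = 1 := by decide
    by_cases hA1 : ∃ x, (x, (1 : ZMod 2)) ∈ A
    · by_cases hA0 : ∃ x, (x, (0 : ZMod 2)) ∈ A
      · obtain ⟨x1, hx1⟩ := hA1
        obtain ⟨x0, hx0⟩ := hA0
        obtain ⟨g, hg, c0, hc0⟩ := hall _ hS0
        set s := x0 + x1 with hs
        have hss : s + s = 0 := ZModModule.add_self s
        have mem10 : ∀ x, (x, (1 : ZMod 2)) ∈ A → (x + s, (0 : ZMod 2)) ∈ A := by
          intro x hx
          have := h1.add _ hx _ hx0 _ hx1
          have e : ((x, 1) + (x0, 0) + (x1, 1) : (Fin m → ZMod 2) × ZMod 2) = (x + s, 0) := by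
            ext
            · simp [hs, add_assoc]
            · simp
              rfl
          rwa [e] at this
        have mem01 : ∀ x, (x + s, (0 : ZMod 2)) ∈ A → (x, (1 : ZMod 2)) ∈ A := by
          intro x hx
          have := h1.add _ hx _ hx0 _ hx1
          have e : ((x + s, 0) + (x0, 0) + (x1, 1) : (Fin m → ZMod 2) × ZMod 2) = (x, 1) := by
            refine Prod.ext ?_ ?_
            · simp only [Prod.fst_add]
              rw [add_assoc, ← hs, add_assoc, hss, add_zero]
            · simp
          rwa [e] at this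
        let R : (Fin m → ZMod 2) → ZMod 4 := fun x => q (x, 1) - q (x + s, 0)
        have hadd1 : ∀ x y z, (x, (1 : ZMod 2)) ∈ A → (y, (1 : ZMod 2)) ∈ A →
            (z, (1 : ZMod 2)) ∈ A → (x + y + z, (1 : ZMod 2)) ∈ A := by
          intro x y z hx hy hz
          have := h1.add _ hx _ hy _ hz
          have e : ((x, 1) + (y, 1) + (z, 1) : (Fin m → ZMod 2) × ZMod 2) = (x + y + z, 1) := by
            refine Prod.ext rfl ?_
            simp only [Prod.snd_add]
            decide
          rwa [e] at this
        have hR : ∀ x y z, (x, (1 : ZMod 2)) ∈ A → (y, (1 : ZMod 2)) ∈ A →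
            (z, (1 : ZMod 2)) ∈ A → R (x + y + z) + R x = R y + R z := by
          intro x y z hx hy hz
          have := h1.quad _ (mem10 x hx) _ (mem10 y hy) _ (mem10 z hz) _ hx
          have t1 : ((y + s, 0) + (z + s, 0) + (x, 1) : (Fin m → ZMod 2) × ZMod 2) =
              (x + y + z, 1) := by
            refine Prod.ext ?_ (by simp)
            simp only [Prod.fst_add]
            have : y + s + (z + s) + x = x + y + z + (s + s) := by abel
            rw [this, hss, add_zero]
          have t2 : ((x + s, 0) + (y + s, 0) + (z + s, 0) : (Fin m → ZMod 2) × ZMod 2) =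
              (x + y + z + s, 0) := by
            refine Prod.ext ?_ (by simp)
            simp only [Prod.fst_add]
            have : x + s + (y + s) + (z + s) = x + y + z + s + (s + s) := by abel
            rw [this, hss, add_zero]
          have t3 : ((x + s, 0) + (z + s, 0) + (x, 1) : (Fin m → ZMod 2) × ZMod 2) = (z, 1) := by
            refine Prod.ext ?_ (by simp)
            simp only [Prod.fst_add]
            have : x + s + (z + s) + x = z + (x + x) + (s + s) := by abel
            rw [this, hss, ZModModule.add_self, add_zero, add_zero]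
          have t4 : ((x + s, 0) + (y + s, 0) + (x, 1) : (Fin m → ZMod 2) × ZMod 2) = (y, 1) := by
            refine Prod.ext ?_ (by simp)
            simp only [Prod.fst_add]
            have : x + s + (y + s) + x = y + (x + x) + (s + s) := by abel
            rw [this, hss, ZModModule.add_self, add_zero, add_zero]
          rw [t1, t2, t3, t4] at this
          simp only [R]
          linear_combination this
        have hpar : ∀ x, (x, (1 : ZMod 2)) ∈ A → 2 * (R x - R x1) = 0 := by
          intro x hx
          have a1 := hR x x1 x1 hx hx1 hx1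
          rw [add_assoc x, ZModModule.add_self, add_zero] at a1
          linear_combination a1
        -- the directions
        let D : Submodule (ZMod 2) (Fin m → ZMod 2) :=
          { carrier := {t | (x1 + t, (1 : ZMod 2)) ∈ A}
            add_mem' := by
              intro a b ha hb
              have := hadd1 _ _ _ ha hb hx1
              have e : x1 + a + (x1 + b) + x1 = x1 + (a + b) := by
                have : x1 + a + (x1 + b) + x1 = x1 + (a + b) + (x1 + x1) := by abel
                rw [this, ZModModule.add_self, add_zero]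
              rw [e] at this
              exact this
            zero_mem' := by
              change (x1 + 0, (1 : ZMod 2)) ∈ A
              rwa [add_zero]
            smul_mem' := by
              intro r t ht
              rcases zmod2_cases r with rfl | rfl
              · rw [zero_smul]
                change (x1 + 0, (1 : ZMod 2)) ∈ A
                rwa [add_zero]
              · rwa [one_smul] }
        let μ : D →ₗ[ZMod 2] ZMod 2 :=
          { toFun := fun t => hf (R (x1 + t.1) - R x1)
            map_add' := by
              intro a b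
              have := hR x1 _ _ hx1 a.2 b.2
              have e : x1 + (x1 + a.1) + (x1 + b.1) = x1 + (a.1 + b.1) := by
                have : x1 + (x1 + a.1) + (x1 + b.1) = x1 + (a.1 + b.1) + (x1 + x1) := by abel
                rw [this, ZModModule.add_self, add_zero]
              rw [e] at this
              have e2 : R (x1 + ((a + b : D) : Fin m → ZMod 2)) - R x1 =
                  (R (x1 + a.1) - R x1) + (R (x1 + b.1) - R x1) := by
                change R (x1 + (a.1 + b.1)) - R x1 = _
                linear_combination this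
              rw [e2, hf_add _ _ (hpar _ a.2) (hpar _ b.2)]
            map_smul' := by
              intro r t
              rcases zmod2_cases r with rfl | rfl
              · simp [hf]
                decide
              · simp }
        obtain ⟨lam, hlam⟩ := LinearMap.exists_extend μ
        let l : Fin m → ZMod 2 := fun i => lam (Pi.single i 1)
        have hl : ∀ x, lam x = ∑ i, l i * x i := by
          intro x
          have : x = ∑ i, x i • (Pi.single i (1 : ZMod 2) : Fin m → ZMod 2) := by
            funext j
            simp [Finset.sum_apply, Pi.single_apply]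
          conv_lhs => rw [this]
          rw [map_sum]
          exact Finset.sum_congr rfl fun i _ => by rw [map_smul, smul_eq_mul, mul_comm]
        have hlamR : ∀ x, (x, (1 : ZMod 2)) ∈ A → e4 (R x) =
            e4 (R x1 + two4 (lam x1)) * sg (lam x) := by
          intro x hx
          have hmem : x1 + x ∈ D := by
            change (x1 + (x1 + x), (1 : ZMod 2)) ∈ A
            rwa [add3'']
          have e1 : lam (x1 + x) = hf (R x - R x1) := by
            have := LinearMap.congr_fun hlam ⟨x1 + x, hmem⟩
            change lam (x1 + x) = hf (R (x1 + (x1 + x)) - R x1) at this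
            rwa [add3''] at this
          have e2 : R x = R x1 + two4 (lam x1) + two4 (lam x) := by
            have e3 := two4_hf _ (hpar x hx)
            rw [← e1, map_add, two4_add] at e3
            linear_combination -e3
          rw [e2, e4_add, e4_two4]
        refine ⟨Φ (s, l, R x1 + two4 (lam x1)) g, ?_, c0, ?_⟩
        · refine Finset.mem_union_right _ ?_
          exact Finset.mem_image.2 ⟨((s, l, R x1 + two4 (lam x1)), g),
            Finset.mem_product.2 ⟨Finset.mem_univ _, hg⟩, rfl⟩
        · rintro ⟨x, y⟩
          by_cases hy : y = 0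
          · subst hy
            simp only [Φ, if_true]
            exact hc0 x
          · have hy1 := hz y hy
            subst hy1
            simp only [Φ, hy, if_false]
            rw [← hl]
            have e0 := hc0 (x + s)
            by_cases hx : (x, (1 : ZMod 2)) ∈ A
            · have e1 := h2 _ hx
              have e2 := h2 _ (mem10 x hx)
              have e3 : q (x, 1) = q (x + s, 0) + R x := by
                simp only [R]
                ring
              rw [e1, e3, e4_add, hlamR x hx]
              rw [e2] at e0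
              linear_combination (e4 (R x1 + two4 (lam x1)) * sg (lam x)) * e0
            · have hx' : (x + s, (0 : ZMod 2)) ∉ A := fun h => hx (mem01 x h)
              rw [h3 _ hx]
              rw [h3 _ hx'] at e0
              linear_combination (e4 (R x1 + two4 (lam x1)) * sg (lam x)) * e0
      · obtain ⟨g, hg, c1, hc1⟩ := hall _ hS1
        refine ⟨Φ1 g, ?_, c1, ?_⟩
        · exact Finset.mem_union_left _ (Finset.mem_union_right _ (Finset.mem_image_of_mem _ hg))
        · rintro ⟨x, y⟩
          by_cases hy : y = 0
          · subst hy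
            simp only [Φ1, if_true, mul_zero]
            exact h3 _ fun h => hA0 ⟨x, h⟩
          · have hy1 := hz y hy
            subst hy1
            simp only [Φ1, hy, if_false]
            exact hc1 x
    · obtain ⟨g, hg, c0, hc0⟩ := hall _ hS0
      refine ⟨Φ0 g, ?_, c0, ?_⟩
      · exact Finset.mem_union_left _ (Finset.mem_union_left _ (Finset.mem_image_of_mem _ hg))
      · rintro ⟨x, y⟩
        by_cases hy : y = 0
        · subst hy
          simp only [Φ0, if_true]
          exact hc0 x
        · have hy1 := hz y hy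
          subst hy1
          simp only [Φ0, hy, if_false, mul_zero]
          exact h3 _ fun h => hA1 ⟨x, h⟩

/-- The number of functions of the class `S` on `(ZMod 2)^m` up to scalars. -/
lemma cnt (m : ℕ) : Cnt (Fin m → ZMod 2) (2 ^ (m ^ 2 + 2 * m)) := by
  classical
  induction m with
  | zero =>
    refine ⟨{fun _ => 1}, by simp, fun f _ => ⟨_, Finset.mem_singleton_self _, f 0, fun x => ?_⟩⟩
    rw [mul_one]
    congr
    exact Subsingleton.elim _ _
  | succ m ih =>
    have h := ih.step
    have e : 2 ^ ((m + 1) ^ 2 + 2 * (m + 1)) = 2 ^ (m ^ 2 + 2 * m) * 2 ^ (2 * m + 3) := by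
      rw [← pow_add]
      congr 1
      ring
    rw [e]
    refine h.transport (fun x => (fun i => x i.succ, x 0)) (fun p => Fin.cons p.2 p.1) ?_ ?_ ?_
    · intro x y z
      rfl
    · intro x y z
      funext i
      refine Fin.cases ?_ (fun i => ?_) i
      · rfl
      · rfl
    · intro x
      funext i
      refine Fin.cases ?_ (fun i => ?_) i
      · rfl
      · rfl

/-- The span of `r` functions contains at most `2 ^ r` functions with values `± 1`. -/
lemma signs_in_span {X : Type} [Finite X] {r : ℕ} (g : Fin r → X → ℂ) :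
    {F : X → ZMod 2 | ∃ α : Fin r → ℂ, ∀ x, sg (F x) = ∑ i, α i * g i x}.ncard ≤ 2 ^ r := by
  classical
  let ρ : X → (Fin r → ℂ) := fun x i => g i x
  obtain ⟨b, hb, hspan, hli⟩ := exists_linearIndependent ℂ (Set.range ρ)
  have hfin : Finite b := (Set.finite_range ρ).subset hb
  have _ : Fintype b := Fintype.ofFinite b
  have hcard : Fintype.card b ≤ r := by
    have := hli.fintype_card_le_finrank
    simpa using this
  have hch : ∀ β : b, ∃ x, ρ x = β.1 := fun β => hb β.2
  choose xs hxs using hch
  have h1 : {F : X → ZMod 2 | ∃ α : Fin r → ℂ, ∀ x, sg (F x) = ∑ i, α i * g i x}.ncard ≤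
      (Set.univ : Set (b → ZMod 2)).ncard := by
    refine Set.ncard_le_ncard_of_injOn (fun F β => F (xs β)) (fun _ _ => Set.mem_univ _) ?_
      (Set.finite_univ)
    rintro F ⟨α, hα⟩ F' ⟨α', hα'⟩ hFF
    have hFF' : ∀ β, F (xs β) = F' (xs β) := fun β => congrFun hFF β
    funext x
    have hx : ρ x ∈ Submodule.span ℂ b := by
      rw [hspan]
      exact Submodule.subset_span ⟨x, rfl⟩
    have key : ∀ v ∈ Submodule.span ℂ b, ∑ i, α i * v i = ∑ i, α' i * v i := by
      intro v hv
      induction hv using Submodule.span_induction with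
      | mem v hv =>
        have e := hxs ⟨v, hv⟩
        have e1 := hα (xs ⟨v, hv⟩)
        have e2 := hα' (xs ⟨v, hv⟩)
        rw [hFF', e2] at e1
        have e3 : ∀ i, g i (xs ⟨v, hv⟩) = v i := fun i => congrFun e i
        simp only [e3] at e1
        exact e1.symm
      | zero => simp
      | add u v _ _ hu hv =>
        simp only [Pi.add_apply, mul_add, Finset.sum_add_distrib, hu, hv]
      | smul c v _ hv =>
        simp only [Pi.smul_apply, smul_eq_mul]
        have e1 : ∀ a : Fin r → ℂ, ∑ i, a i * (c * v i) = c * ∑ i, a i * v i := by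
          intro a
          rw [Finset.mul_sum]
          exact Finset.sum_congr rfl fun i _ => by ring
        rw [e1, e1, hv]
    have e := key _ hx
    have e1 : sg (F x) = sg (F' x) := by
      rw [hα, hα']
      exact e
    rcases zmod2_cases (F x) with h | h <;> rcases zmod2_cases (F' x) with h' | h' <;>
      rw [h, h'] at e1 ⊢ <;> norm_num at e1
  refine h1.trans ?_
  rw [Set.ncard_univ, Nat.card_eq_fintype_card, Fintype.card_fun, ZMod.card]
  exact Nat.pow_le_pow_right (by norm_num) hcard

/-- The main counting argument. -/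
theorem main_count {k d r : ℕ} (hd : 66 * 2 ^ k ≤ d + 66) {α : Fin r → ℂ}
    {s : Fin r → (Fin d → ZMod 2) → ℂ} (hs : ∀ i, S (s i))
    (hsum : ∀ z : Fin d → ZMod 2, ∏ j, wt (z j) = ∑ i, α i * s i z) :
    4 ^ k ≤ r * (2 * k + 1) ^ 2 := by
  classical
  have hcost : cost k + cost k ≤ d := by
    have := cost_le k
    omega
  -- functions on pairs
  let G := (Fin k → ZMod 2) × (Fin k → ZMod 2)
  have hcnt : Cnt G (2 ^ ((k + k) ^ 2 + 2 * (k + k))) := by
    refine (cnt (k + k)).transport (fun p : G => Fin.append p.1 p.2)
      (fun x => (fun i => x (Fin.castAdd k i), fun i => x (Fin.natAdd k i))) ?_ ?_ ?_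
    · intro x y z
      funext i
      refine Fin.addCases (fun i => ?_) (fun i => ?_) i
      · simp only [Fin.append_left, Pi.add_apply]
        rfl
      · simp only [Fin.append_right, Pi.add_apply]
        rfl
    · intro x y z
      rfl
    · intro x
      simp only [Fin.append_left, Fin.append_right]
      rfl
  obtain ⟨𝓕, hF1, hF2⟩ := hcnt
  have hex : ∀ F : G → ZMod 2, ∃ g : Fin r → 𝓕, ∃ β : Fin r → ℂ,
      ∀ x, sg (F x) = ∑ i, β i * (g i).1 x := by
    intro F
    obtain ⟨T, hT, hTsum⟩ := (C.signs k fun a b => F (a, b)).mono hcost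
    have hi : ∀ i, ∃ g : 𝓕, ∃ c : ℂ, ∀ x, ∑ z, T (x, z) * s i z = c * g.1 x := by
      intro i
      have hSi : S (fun x => ∑ z, T (x, z) * s i z) := by
        have := (hT.mul ((hs i).comp (Aff.snd (G := G) (H := Fin d → ZMod 2))))
        exact this.margPi (Fin d)
      obtain ⟨g, hg, c, hc⟩ := hF2 _ hSi
      exact ⟨⟨g, hg⟩, c, hc⟩
    choose g c hgc using hi
    refine ⟨g, fun i => α i * c i, fun x => ?_⟩
    have e1 : sg (F x) = ∑ z, T (x, z) * ∏ j, wt (z j) := hTsum x
    rw [e1]
    calc ∑ z, T (x, z) * ∏ j, wt (z j) = ∑ z, ∑ i, α i * (T (x, z) * s i z) := by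
          refine Finset.sum_congr rfl fun z _ => ?_
          rw [hsum, Finset.mul_sum]
          exact Finset.sum_congr rfl fun i _ => by ring
      _ = ∑ i, α i * ∑ z, T (x, z) * s i z := by
          rw [Finset.sum_comm]
          exact Finset.sum_congr rfl fun i _ => by rw [Finset.mul_sum]
      _ = ∑ i, α i * c i * (g i).1 x := by
          refine Finset.sum_congr rfl fun i _ => ?_
          rw [hgc]
          ring
  choose g β hg using hex
  -- count
  have hle : Fintype.card (G → ZMod 2) ≤ 2 ^ r * Fintype.card (Fin r → 𝓕) := by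
    have h1 := Finset.card_le_mul_card_image (s := (Finset.univ : Finset (G → ZMod 2)))
      (f := g) (2 ^ r) (by
        intro t _
        have h2 : ((Finset.univ.filter fun F : G → ZMod 2 => g F = t) : Set (G → ZMod 2)).ncard ≤
            2 ^ r := by
          refine (Set.ncard_le_ncard ?_ (Set.toFinite _)).trans
            (signs_in_span fun i => (t i).1)
          intro F hF
          simp only [Finset.coe_filter, Finset.mem_univ, true_and, Set.mem_ofPred_eq] at hF
          refine ⟨β F, fun x => ?_⟩
          rw [← hF]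
          exact hg F x
        rwa [Set.ncard_coe_finset] at h2)
    rw [Finset.card_univ] at h1
    refine h1.trans (Nat.mul_le_mul le_rfl ?_)
    exact Finset.card_le_univ _
  rw [Fintype.card_fun, Fintype.card_fun, ZMod.card, Fintype.card_coe, Fintype.card_fin] at hle
  have hG : Fintype.card G = 4 ^ k := by
    simp only [G, Fintype.card_prod, Fintype.card_fun, ZMod.card, Fintype.card_fin]
    rw [← mul_pow]
    norm_num
  rw [hG] at hle
  have hle2 : 2 ^ (4 ^ k) ≤ 2 ^ (r + ((k + k) ^ 2 + 2 * (k + k)) * r) := by
    refine hle.trans ?_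
    rw [pow_add, pow_mul]
    exact Nat.mul_le_mul le_rfl (Nat.pow_le_pow_left hF1 r)
  have hle3 := (Nat.pow_le_pow_iff_right (by norm_num : 1 < 2)).1 hle2
  calc 4 ^ k ≤ r + ((k + k) ^ 2 + 2 * (k + k)) * r := hle3
    _ = r * (2 * k + 1) ^ 2 := by ring

end Pool.Agent.P8H92.Stab
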