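import Mathlib

/-!
# Stabilizer states and stabilizer rank: definitions

A tensor in `(ℂ²)^{⊗d}` is given by its coordinates in the basis `e_{x 0} ⊗ ... ⊗ e_{x (d-1)}`,
`x : Fin d → Fin 2`, and a linear operator by its matrix in this basis.
-/

set_option autoImplicit false

namespace Pool.Agent.P8H92.Stab

/-- The space `V_d = (ℂ²)^{⊗d}`, in coordinates. -/
abbrev Tensor (d : ℕ) : Type := (Fin d → Fin 2) → ℂ

/-- The linear operators of `V_d`, in coordinates. -/
abbrev Op (d : ℕ) : Type := Matrix (Fin d → Fin 2) (Fin d → Fin 2) ℂ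

/-- The Pauli matrix `X`. -/
def pauliX : Matrix (Fin 2) (Fin 2) ℂ := !![0, 1; 1, 0]

/-- The Pauli matrix `Y`. -/
def pauliY : Matrix (Fin 2) (Fin 2) ℂ := !![0, -Complex.I; Complex.I, 0]

/-- The Pauli matrix `Z`. -/
def pauliZ : Matrix (Fin 2) (Fin 2) ℂ := !![1, 0; 0, -1]

/-- The group `P_1` generated by `X`, `Y`, `Z` (which are involutions, so that it is the monoid
generated by them). -/
def P1 : Submonoid (Matrix (Fin 2) (Fin 2) ℂ) := Submonoid.closure {pauliX, pauliY, pauliZ}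

/-- The Pauli group `P_d`: the tensor products `σ 0 ⊗ ... ⊗ σ (d-1)` of elements of `P_1`. -/
def PauliGroup (d : ℕ) : Set (Op d) :=
  {M | ∃ σ : Fin d → Matrix (Fin 2) (Fin 2) ℂ, (∀ i, σ i ∈ P1) ∧
    ∀ x y, M x y = ∏ i, σ i (x i) (y i)}

/-- The Clifford group: the normalizer of the Pauli group `P_d` in the unitary group of `V_d`. -/
def CliffordGroup (d : ℕ) : Set (Op d) :=
  {U | U ∈ Matrix.unitaryGroup (Fin d → Fin 2) ℂ ∧
    ∀ P : Op d, U * P * star U ∈ PauliGroup d ↔ P ∈ PauliGroup d}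

/-- The tensor power `v^{⊗d}` of a vector `v` of `ℂ²`. -/
def tensorPower (v : Fin 2 → ℂ) (d : ℕ) : Tensor d := fun x => ∏ i, v (x i)

/-- The vector `v = e₀ + √2 e₁` of `ℂ²`. -/
noncomputable def vee : Fin 2 → ℂ := ![1, (Real.sqrt 2 : ℝ)]

/-- The stabilizer states: the tensors `U · e₀^{⊗d}`, `U` in the Clifford group. -/
def StabStates (d : ℕ) : Set (Tensor d) :=
  {T | ∃ U ∈ CliffordGroup d, T = U.mulVec (tensorPower ![1, 0] d)}

/-- The stabilizer rank of `T`: the least `r` such that `T` is a linear combination of `r`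
stabilizer states. -/
noncomputable def stabR {d : ℕ} (T : Tensor d) : ℕ :=
  sInf {r : ℕ | ∃ (α : Fin r → ℂ) (S : Fin r → Tensor d), (∀ i, S i ∈ StabStates d) ∧
    T = ∑ i, α i • S i}

end Pool.Agent.P8H92.Stab
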