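import Pool.Agent.P8H92.Stab.Defs
import Pool.Agent.P8H92.Stab.D

/-!
# Stabilizer states are in the class `S`
-/

set_option autoImplicit false
set_option linter.unusedSectionVars false

namespace Pool.Agent.P8H92.Stab

open Finset

lemma e4_sum {ι : Type} (s : Finset ι) (f : ι → ZMod 4) : e4 (∑ i ∈ s, f i) = ∏ i ∈ s, e4 (f i) := by
  classical
  induction s using Finset.induction_on with
  | empty => simp
  | insert a s ha ih => rw [Finset.sum_insert ha, Finset.prod_insert ha, e4_add, ih]

lemma sg_sum {ι : Type} (s : Finset ι) (f : ι → ZMod 2) : sg (∑ i ∈ s, f i) = ∏ i ∈ s, sg (f i) := by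
  classical
  induction s using Finset.induction_on with
  | empty => simp
  | insert a s ha ih => rw [Finset.sum_insert ha, Finset.prod_insert ha, sg_add, ih]

lemma zmod4_cases (t : ZMod 4) : t = 0 ∨ t = 1 ∨ t = 2 ∨ t = 3 := by
  revert t
  decide

lemma e4_inj {a b : ZMod 4} (h : e4 a = e4 b) : a = b := by
  have h1 : e4 (a - b) = 1 := by
    have : e4 (a - b) * e4 b = e4 a := by rw [← e4_add, sub_add_cancel]
    rw [h] at this
    exact mul_right_cancel₀ (e4_ne b) (this.trans (one_mul _).symm)
  have h2 : a - b = 0 := by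
    generalize a - b = t at h1
    rcases zmod4_cases t with rfl | rfl | rfl | rfl
    · rfl
    · rw [e4_one] at h1
      have := congrArg Complex.re h1
      simp at this
    · rw [e4_two] at h1
      norm_num at h1
    · rw [e4_three] at h1
      have := congrArg Complex.re h1
      simp at this
  exact sub_eq_zero.1 h2

lemma sg_inj {a b : ZMod 2} (h : sg a = sg b) : a = b := by
  rcases zmod2_cases a with rfl | rfl <;> rcases zmod2_cases b with rfl | rfl <;>
    first
    | rfl
    | (simp at h; norm_num at h)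

/-- The matrix of `i^k X^a Z^b` (one qubit). -/
noncomputable def w1 (k : ZMod 4) (a b : ZMod 2) (x y : ZMod 2) : ℂ :=
  if x = y + a then e4 k * sg (b * y) else 0

lemma w1_mul (k k' : ZMod 4) (a b a' b' : ZMod 2) (x z : ZMod 2) :
    ∑ y : ZMod 2, w1 k a b x y * w1 k' a' b' y z =
      w1 (k + k' + two4 (b * a')) (a + a') (b + b') x z := by
  have hu : (Finset.univ : Finset (ZMod 2)) = {0, 1} := by decide
  rw [Finset.sum_eq_single (z + a')]
  · unfold w1
    rw [if_pos rfl]
    by_cases h : x = z + a' + a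
    · rw [if_pos h, if_pos (by rw [h]; ring)]
      rw [e4_add, e4_add, e4_two4, mul_add, add_mul, sg_add, sg_add]
      ring
    · rw [if_neg h, if_neg (by intro h'; apply h; rw [h']; ring), zero_mul]
  · intro y _ hy
    unfold w1
    rw [if_neg hy, mul_zero]
  · intro h
    exact absurd (Finset.mem_univ _) h

lemma P1_form : ∀ M ∈ P1, ∃ (k : ZMod 4) (a b : ZMod 2), ∀ x y : ZMod 2, M x y = w1 k a b x y := by
  intro M hM
  have h11 : (1 : ZMod 2) + 1 = 0 := rfl
  induction hM using Submonoid.closure_induction with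
  | mem M hM =>
    rcases hM with rfl | rfl | rfl
    · refine ⟨0, 1, 0, fun x y => ?_⟩
      rcases zmod2_cases x with rfl | rfl <;> rcases zmod2_cases y with rfl | rfl
      · change (0 : ℂ) = _
        simp [w1]
      · change (1 : ℂ) = _
        simp [w1, h11]
      · change (1 : ℂ) = _
        simp [w1]
      · change (0 : ℂ) = _
        simp [w1, h11]
    · refine ⟨1, 1, 1, fun x y => ?_⟩
      rcases zmod2_cases x with rfl | rfl <;> rcases zmod2_cases y with rfl | rfl
      · change (0 : ℂ) = _
        simp [w1]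
      · change -Complex.I = _
        simp [w1, h11, e4_one]
      · change Complex.I = _
        simp [w1, e4_one]
      · change (0 : ℂ) = _
        simp [w1, h11]
    · refine ⟨0, 0, 1, fun x y => ?_⟩
      rcases zmod2_cases x with rfl | rfl <;> rcases zmod2_cases y with rfl | rfl
      · change (1 : ℂ) = _
        simp [w1]
      · change (0 : ℂ) = _
        simp [w1]
      · change (0 : ℂ) = _
        simp [w1]
      · change (-1 : ℂ) = _
        simp [w1]
  | one =>
    refine ⟨0, 0, 0, fun x y => ?_⟩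
    rcases zmod2_cases x with rfl | rfl <;> rcases zmod2_cases y with rfl | rfl
    · change (1 : Matrix (Fin 2) (Fin 2) ℂ) 0 0 = _
      simp [w1]
    · change (1 : Matrix (Fin 2) (Fin 2) ℂ) 0 1 = _
      simp [w1]
    · change (1 : Matrix (Fin 2) (Fin 2) ℂ) 1 0 = _
      simp [w1]
    · change (1 : Matrix (Fin 2) (Fin 2) ℂ) 1 1 = _
      simp [w1]
  | mul M N _ _ hM hN =>
    obtain ⟨k, a, b, h⟩ := hM
    obtain ⟨k', a', b', h'⟩ := hN
    refine ⟨k + k' + two4 (b * a'), a + a', b + b', fun x z => ?_⟩
    rw [← w1_mul]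
    refine (Matrix.mul_apply (M := M) (N := N) (i := x) (k := z)).trans ?_
    exact Finset.sum_congr rfl fun y _ => congrArg₂ (· * ·) (h x y) (h' y z)

variable {d : ℕ}

/-- The matrix of `i^k X^a Z^b`. -/
noncomputable def Wf (k : ZMod 4) (a b : Fin d → ZMod 2) (x y : Fin d → ZMod 2) : ℂ :=
  if x = y + a then e4 k * sg (∑ i, b i * y i) else 0

lemma pauli_form {M : Op d} (hM : M ∈ PauliGroup d) :
    ∃ (k : ZMod 4) (a b : Fin d → ZMod 2), ∀ x y : Fin d → ZMod 2, M x y = Wf k a b x y := by
  obtain ⟨σ, h1, h2⟩ := hM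
  have h3 := fun i => P1_form _ (h1 i)
  choose k a b h using h3
  refine ⟨∑ i, k i, a, b, fun x y => ?_⟩
  have e1 : M x y = ∏ i, w1 (k i) (a i) (b i) (x i) (y i) := by
    refine (h2 x y).trans (Finset.prod_congr rfl fun i _ => h i (x i) (y i))
  rw [e1]
  unfold w1 Wf
  by_cases hxy : x = y + a
  · rw [if_pos hxy, e4_sum, sg_sum, ← Finset.prod_mul_distrib]
    refine Finset.prod_congr rfl fun i _ => ?_
    rw [if_pos]
    rw [hxy]
    rfl
  · rw [if_neg hxy]
    have : ∃ i, x i ≠ y i + a i := by
      by_contra hcon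
      push Not at hcon
      exact hxy (funext hcon)
    obtain ⟨i, hi⟩ := this
    exact Finset.prod_eq_zero (Finset.mem_univ i) (if_neg hi)

lemma Wf_mul (k k' : ZMod 4) (a b a' b' : Fin d → ZMod 2) (x z : Fin d → ZMod 2) :
    ∑ y : Fin d → ZMod 2, Wf k a b x y * Wf k' a' b' y z =
      Wf (k + k' + two4 (∑ i, b i * a' i)) (a + a') (b + b') x z := by
  rw [Finset.sum_eq_single (z + a')]
  · unfold Wf
    rw [if_pos rfl]
    have hs : ∑ i, (b + b') i * z i = ∑ i, b i * z i + ∑ i, b' i * z i := by
      rw [← Finset.sum_add_distrib]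
      exact Finset.sum_congr rfl fun i _ => by rw [Pi.add_apply]; ring
    have hs2 : ∑ i, b i * (z + a') i = ∑ i, b i * z i + ∑ i, b i * a' i := by
      rw [← Finset.sum_add_distrib]
      exact Finset.sum_congr rfl fun i _ => by rw [Pi.add_apply]; ring
    by_cases h : x = z + a' + a
    · rw [if_pos h, if_pos (by rw [h]; abel)]
      rw [hs, hs2, e4_add, e4_add, e4_two4, sg_add, sg_add]
      ring
    · rw [if_neg h, if_neg (by intro h'; apply h; rw [h']; abel), zero_mul]
  · intro y _ hy
    unfold Wf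
    rw [if_neg hy, mul_zero]
  · intro h
    exact absurd (Finset.mem_univ _) h

lemma Wf_inj {k k' : ZMod 4} {a b a' b' : Fin d → ZMod 2}
    (h : ∀ x y, Wf k a b x y = Wf k' a' b' x y) : k = k' ∧ a = a' ∧ b = b' := by
  have h0 := h a 0
  have ha : a = a' := by
    by_contra hne
    unfold Wf at h0
    rw [if_pos (by simp), if_neg (by simpa using hne)] at h0
    simp only [Pi.zero_apply, mul_zero, Finset.sum_const_zero, sg_zero, mul_one] at h0
    exact e4_ne _ h0
  subst ha
  have hk : k = k' := by
    unfold Wf at h0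
    rw [if_pos (by simp), if_pos (by simp)] at h0
    simp only [Pi.zero_apply, mul_zero, Finset.sum_const_zero, sg_zero, mul_one] at h0
    exact e4_inj h0
  subst hk
  refine ⟨rfl, rfl, ?_⟩
  funext i
  have h1 := h (Pi.single i 1 + a) (Pi.single i 1)
  unfold Wf at h1
  rw [if_pos rfl, if_pos rfl] at h1
  have h2 := mul_left_cancel₀ (e4_ne k) h1
  have h3 := sg_inj h2
  simpa [Pi.single_apply] using h3

/-- Functions `i ^ q` with a quadratic `q` which is defined everywhere. -/
lemma S.expo {G : Type} [AddCommGroup G] [Module (ZMod 2) G] {q : G → ZMod 4}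
    (h : ∀ a b c d, q (b + c + d) + q b + q c + q d =
      q (a + b + c) + q (a + c + d) + q (a + b + d) + q a) : S (fun x => e4 (q x)) :=
  ⟨1, Set.univ, q, ⟨fun _ _ _ _ _ _ => trivial, fun a _ b _ c _ d _ => h a b c d⟩,
    fun x _ => by rw [one_mul], fun x hx => absurd trivial hx⟩

lemma sum_sg (y : Fin d → ZMod 2) :
    ∑ s : Fin d → ZMod 2, sg (∑ i, s i * y i) = if y = 0 then (2 : ℂ) ^ d else 0 := by
  classical
  have hu : (Finset.univ : Finset (ZMod 2)) = {0, 1} := by decide
  have h1 : ∀ s : Fin d → ZMod 2, sg (∑ i, s i * y i) = ∏ i, sg (s i * y i) := fun s => sg_sum _ _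
  simp only [h1]
  rw [← Fintype.piFinset_univ, ← Finset.prod_univ_sum (fun _ => Finset.univ)
    (fun i t => sg (t * y i))]
  have h2 : ∀ i, ∑ t : ZMod 2, sg (t * y i) = if y i = 0 then (2 : ℂ) else 0 := by
    intro i
    rw [hu, Finset.sum_pair (by decide)]
    rcases zmod2_cases (y i) with h | h <;> rw [h] <;> norm_num
  simp only [h2]
  by_cases hy : y = 0
  · rw [if_pos hy]
    subst hy
    simp
  · rw [if_neg hy]
    have : ∃ i, y i ≠ 0 := by
      by_contra hcon
      push Not at hcon
      exact hy (funext hcon)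
    obtain ⟨i, hi⟩ := this
    exact Finset.prod_eq_zero (Finset.mem_univ i) (if_neg hi)

end Pool.Agent.P8H92.Stab
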