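import Pool.Agent.P8H92.Stab.E

/-!
# Stabilizer states are in the class `S`, and they span
-/

set_option autoImplicit false
set_option linter.unusedSectionVars false

namespace Pool.Agent.P8H92.Stab

open Finset

variable {d : ℕ}

lemma prod_w1 (k : Fin d → ZMod 4) (a b x y : Fin d → ZMod 2) :
    ∏ i, w1 (k i) (a i) (b i) (x i) (y i) = Wf (∑ i, k i) a b x y := by
  unfold w1 Wf
  by_cases hxy : x = y + a
  · rw [if_pos hxy, e4_sum, sg_sum, ← Finset.prod_mul_distrib]
    refine Finset.prod_congr rfl fun i _ => ?_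
    rw [if_pos]
    rw [hxy]
    rfl
  · rw [if_neg hxy]
    have : ∃ i, x i ≠ y i + a i := by
      by_contra hcon
      push Not at hcon
      exact hxy (funext hcon)
    obtain ⟨i, hi⟩ := this
    exact Finset.prod_eq_zero (Finset.mem_univ i) (if_neg hi)

/-- The operator `X^a Z^b`. -/
noncomputable def XZ (a b : Fin d → ZMod 2) : Op d := Matrix.of fun x y => Wf 0 a b x y

lemma X_mem : pauliX ∈ P1 := Submonoid.subset_closure (by simp)

lemma Y_mem : pauliY ∈ P1 := Submonoid.subset_closure (by simp)

lemma Z_mem : pauliZ ∈ P1 := Submonoid.subset_closure (by simp)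

lemma w1_mem (a b : ZMod 2) : ∃ M ∈ P1, ∀ x y : ZMod 2, M x y = w1 0 a b x y := by
  have h11 : (1 : ZMod 2) + 1 = 0 := rfl
  have hX : ∀ x y : ZMod 2, pauliX x y = w1 0 1 0 x y := by
    intro x y
    rcases zmod2_cases x with rfl | rfl <;> rcases zmod2_cases y with rfl | rfl
    · change (0 : ℂ) = _
      simp [w1]
    · change (1 : ℂ) = _
      simp [w1, h11]
    · change (1 : ℂ) = _
      simp [w1]
    · change (0 : ℂ) = _
      simp [w1, h11]
  have hZ : ∀ x y : ZMod 2, pauliZ x y = w1 0 0 1 x y := by
    intro x y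
    rcases zmod2_cases x with rfl | rfl <;> rcases zmod2_cases y with rfl | rfl
    · change (1 : ℂ) = _
      simp [w1]
    · change (0 : ℂ) = _
      simp [w1]
    · change (0 : ℂ) = _
      simp [w1]
    · change (-1 : ℂ) = _
      simp [w1]
  have h1 : ∀ x y : ZMod 2, (1 : Matrix (Fin 2) (Fin 2) ℂ) x y = w1 0 0 0 x y := by
    intro x y
    rcases zmod2_cases x with rfl | rfl <;> rcases zmod2_cases y with rfl | rfl
    · change (1 : Matrix (Fin 2) (Fin 2) ℂ) 0 0 = _
      simp [w1]
    · change (1 : Matrix (Fin 2) (Fin 2) ℂ) 0 1 = _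
      simp [w1]
    · change (1 : Matrix (Fin 2) (Fin 2) ℂ) 1 0 = _
      simp [w1]
    · change (1 : Matrix (Fin 2) (Fin 2) ℂ) 1 1 = _
      simp [w1]
  rcases zmod2_cases a with rfl | rfl <;> rcases zmod2_cases b with rfl | rfl
  · exact ⟨1, P1.one_mem, h1⟩
  · exact ⟨_, Z_mem, hZ⟩
  · exact ⟨_, X_mem, hX⟩
  · refine ⟨_, P1.mul_mem X_mem Z_mem, fun x z => ?_⟩
    have h2 := w1_mul 0 0 1 0 0 1 x z
    simp only [zero_mul, add_zero, zero_add] at h2
    have h3 : two4 0 = 0 := rfl
    rw [h3] at h2
    rw [← h2]
    refine (Matrix.mul_apply (M := pauliX) (N := pauliZ) (i := x) (k := z)).trans ?_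
    exact Finset.sum_congr rfl fun y _ => congrArg₂ (· * ·) (hX x y) (hZ y z)

lemma XZ_mem (a b : Fin d → ZMod 2) : XZ a b ∈ PauliGroup d := by
  have h := fun i => w1_mem (a i) (b i)
  choose σ h1 h2 using h
  refine ⟨σ, h1, fun x y => ?_⟩
  have e1 : XZ a b x y = Wf 0 a b x y := rfl
  have e2 := prod_w1 (fun _ => 0) a b x y
  rw [Finset.sum_const_zero] at e2
  rw [e1, ← e2]
  exact Finset.prod_congr rfl fun i _ => (h2 i (x i) (y i)).symm

lemma XZ_mul (a b a' b' : Fin d → ZMod 2) (h : ∑ i, b i * a' i = 0) :
    XZ a b * XZ a' b' = XZ (a + a') (b + b') := by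
  funext x z
  refine (Matrix.mul_apply (M := XZ a b) (N := XZ a' b')).trans ?_
  have h1 := Wf_mul 0 0 a b a' b' x z
  have h3 : two4 0 = 0 := rfl
  have h4 : (0 : ZMod 4) + 0 + 0 = 0 := rfl
  rw [h, h3, h4] at h1
  exact h1

lemma XZ_zero : XZ (0 : Fin d → ZMod 2) 0 = 1 := by
  have key : ∀ x y : Fin d → ZMod 2, Wf 0 0 0 x y = if x = y then 1 else 0 := by
    intro x y
    unfold Wf
    by_cases h : x = y
    · rw [if_pos (by rw [h, add_zero]), if_pos h]
      simp
    · rw [if_neg (by rw [add_zero]; exact h), if_neg h]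
  funext x y
  by_cases h : x = y
  · subst h
    exact ((key x x).trans (if_pos rfl)).trans (Matrix.one_apply_eq x).symm
  · exact ((key x y).trans (if_neg h)).trans (Matrix.one_apply_ne h).symm

/-- The first column of a Clifford operator is in the class `S`. -/
lemma column_S {U : Op d} (hU : U ∈ CliffordGroup d) :
    S (fun x : Fin d → ZMod 2 => U x (0 : Fin d → ZMod 2)) := by
  classical
  obtain ⟨hun, hcl⟩ := hU
  have hUU : star U * U = 1 := Matrix.mem_unitaryGroup_iff'.1 hun
  have hUU' : U * star U = 1 := Matrix.mem_unitaryGroup_iff.1 hun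
  have hP : ∀ s : Fin d → ZMod 2, ∃ (k : ZMod 4) (a b : Fin d → ZMod 2),
      ∀ x y : Fin d → ZMod 2, (U * XZ 0 s * star U) x y = Wf k a b x y :=
    fun s => pauli_form ((hcl _).2 (XZ_mem 0 s))
  choose k a b hkab using hP
  have hmul : ∀ s t, (U * XZ 0 s * star U) * (U * XZ 0 t * star U) = U * XZ 0 (s + t) * star U := by
    intro s t
    have h1 := XZ_mul (0 : Fin d → ZMod 2) s 0 t (by simp)
    rw [add_zero] at h1
    rw [← h1]
    calc (U * XZ 0 s * star U) * (U * XZ 0 t * star U)
        = U * XZ 0 s * (star U * U) * XZ 0 t * star U := by simp only [Matrix.mul_assoc]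
      _ = U * (XZ 0 s * XZ 0 t) * star U := by
          rw [hUU, Matrix.mul_one, ← Matrix.mul_assoc]
  have hrel : ∀ s t, k (s + t) = k s + k t + two4 (∑ i, b s i * a t i) ∧
      a (s + t) = a s + a t ∧ b (s + t) = b s + b t := by
    intro s t
    refine Wf_inj fun x z => ?_
    rw [← hkab, ← Wf_mul, ← hmul]
    refine (Matrix.mul_apply (M := U * XZ 0 s * star U) (N := U * XZ 0 t * star U)
      (i := x) (k := z)).trans ?_
    exact Finset.sum_congr rfl fun y _ => congrArg₂ (· * ·) (hkab s x y) (hkab t y z)
  have ha : Aff a := by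
    intro x y z
    rw [(hrel _ _).2.1, (hrel _ _).2.1]
  have hb : Aff b := by
    intro x y z
    rw [(hrel _ _).2.2, (hrel _ _).2.2]
  -- the matrix of the projection
  have hsum : ∀ x y : Fin d → ZMod 2, ∑ s, Wf (k s) (a s) (b s) x y =
      (2 : ℂ) ^ d * (U x (0 : Fin d → ZMod 2) * star (U y (0 : Fin d → ZMod 2))) := by
    intro x y
    have h1 : ∑ s, Wf (k s) (a s) (b s) x y =
        (U * (∑ s : Fin d → ZMod 2, XZ 0 s) * star U) x y := by
      rw [Matrix.mul_sum, Matrix.sum_mul]
      refine Eq.trans ?_ (Matrix.sum_apply x y _ _).symm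
      exact Finset.sum_congr rfl fun s _ => (hkab s x y).symm
    have h2 : ∀ u v : Fin d → ZMod 2, (∑ s : Fin d → ZMod 2, XZ 0 s : Op d) u v =
        if u = 0 ∧ v = 0 then (2 : ℂ) ^ d else 0 := by
      intro u v
      refine (Matrix.sum_apply u v _ _).trans ?_
      change ∑ s : Fin d → ZMod 2, Wf 0 0 s u v = _
      unfold Wf
      simp only [add_zero, e4_zero, one_mul]
      by_cases huv : u = v
      · simp only [huv, if_true, and_self]
        exact sum_sg v
      · simp only [huv, if_false, Finset.sum_const_zero]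
        rw [if_neg]
        rintro ⟨rfl, rfl⟩
        exact huv rfl
    rw [h1]
    refine (Matrix.mul_apply (M := U * (∑ s : Fin d → ZMod 2, XZ 0 s)) (N := star U)
      (i := x) (k := y)).trans ?_
    have h3 : ∀ v : Fin d → ZMod 2, (U * (∑ s : Fin d → ZMod 2, XZ 0 s)) x v =
        if v = 0 then (2 : ℂ) ^ d * U x (0 : Fin d → ZMod 2) else 0 := by
      intro v
      refine (Matrix.mul_apply (M := U) (N := (∑ s : Fin d → ZMod 2, XZ 0 s))
        (i := x) (k := v)).trans ?_
      refine (Finset.sum_eq_single (0 : Fin d → ZMod 2) ?_ ?_).trans ?_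
      · intro u _ hu
        have := h2 u v
        rw [if_neg (fun h => hu h.1)] at this
        exact (congrArg (U x u * ·) this).trans (mul_zero _)
      · intro h
        exact absurd (Finset.mem_univ _) h
      · have := h2 0 v
        refine (congrArg (U x (0 : Fin d → ZMod 2) * ·) this).trans ?_
        by_cases hv : v = 0
        · simp only [hv, and_self, if_true]
          ring
        · simp only [hv, and_false, if_false, mul_zero]
    refine (Finset.sum_eq_single (0 : Fin d → ZMod 2) ?_ ?_).trans ?_
    · intro v _ hv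
      have := h3 v
      rw [if_neg hv] at this
      exact (congrArg (· * (star U) v y) this).trans (zero_mul _)
    · intro h
      exact absurd (Finset.mem_univ _) h
    · have := h3 0
      rw [if_pos rfl] at this
      refine (congrArg (· * (star U) (0 : Fin d → ZMod 2) y) this).trans ?_
      rw [mul_assoc]
      rfl
  -- a nonzero entry
  have hne : ∃ y0 : Fin d → ZMod 2, U y0 (0 : Fin d → ZMod 2) ≠ 0 := by
    by_contra hcon
    push Not at hcon
    have h1 : (star U * U) (0 : Fin d → ZMod 2) (0 : Fin d → ZMod 2) = 0 := by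
      refine (Matrix.mul_apply (M := star U) (N := U) (i := (0 : Fin d → ZMod 2))
        (k := (0 : Fin d → ZMod 2))).trans ?_
      refine Finset.sum_eq_zero fun y _ => ?_
      have := hcon y
      exact (congrArg ((star U) (0 : Fin d → ZMod 2) y * ·) this).trans (mul_zero _)
    rw [hUU] at h1
    have h2 : (1 : Op d) (0 : Fin d → ZMod 2) (0 : Fin d → ZMod 2) = 1 := Matrix.one_apply_eq _
    rw [h2] at h1
    exact one_ne_zero h1
  obtain ⟨y0, hy0⟩ := hne
  -- the function of two variables
  have hS : S (fun p : (Fin d → ZMod 2) × (Fin d → ZMod 2) =>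
      Wf (k p.2) (a p.2) (b p.2) p.1 y0) := by
    have s1 : S (fun p : (Fin d → ZMod 2) × (Fin d → ZMod 2) =>
        if p.1 = y0 + a p.2 then (1 : ℂ) else 0) :=
      S.eq' Aff.fst ((Aff.const y0).add (ha.comp Aff.snd))
    have s2 : S (fun p : (Fin d → ZMod 2) × (Fin d → ZMod 2) => e4 (k p.2)) := by
      have h4 : S (fun s : Fin d → ZMod 2 => e4 (k s)) := by
        refine S.expo fun x y z w => ?_
        have hbil1 : ∀ s t u, ∑ i, b (s + t) i * a u i =
            ∑ i, b s i * a u i + ∑ i, b t i * a u i := by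
          intro s t u
          rw [← Finset.sum_add_distrib]
          exact Finset.sum_congr rfl fun i _ => by rw [(hrel s t).2.2, Pi.add_apply]; ring
        simp only [(hrel _ _).1, hbil1, two4_add]
        have h4 : (4 : ZMod 4) = 0 := rfl
        have hsym : ∀ s t, two4 (∑ i, b s i * a t i) = two4 (∑ i, b t i * a s i) := by
          intro s t
          have e1 := (hrel s t).1
          have e2 := (hrel t s).1
          rw [add_comm t s] at e2
          linear_combination e2 - e1
        have htwo : ∀ t, 2 * two4 t = 0 := by decide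
        linear_combination (-(k x)) * h4 - 2 * htwo (∑ i, b x i * a z i) +
          (two4 (∑ i, b x i * a z i)) * h4 - htwo (∑ i, b x i * a y i) - htwo (∑ i, b x i * a w i)
          - htwo (∑ i, b x i * a z i)
      exact h4.comp Aff.snd
    have s3 : S (fun p : (Fin d → ZMod 2) × (Fin d → ZMod 2) => sg (∑ i, b p.2 i * y0 i)) := by
      refine S.signAff (Aff.sum _ fun i _ => ?_)
      intro x y z
      have := (hb.apply i) x.2 y.2 z.2
      simp only at this ⊢
      have e : (x + y + z).2 = x.2 + y.2 + z.2 := rfl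
      rw [e, this]
      ring
    refine ((s1.mul s2).mul s3).congr fun p => ?_
    unfold Wf
    by_cases h : p.1 = y0 + a p.2
    · rw [if_pos h, if_pos h]
      ring
    · rw [if_neg h, if_neg h]
      ring
  have hfin := (hS.margPi (Fin d)).smul (((2 : ℂ) ^ d * star (U y0 (0 : Fin d → ZMod 2)))⁻¹)
  refine hfin.congr fun x => ?_
  simp only
  rw [hsum]
  have hst : star (U y0 (0 : Fin d → ZMod 2)) ≠ 0 := by
    simpa using hy0
  have h2d : (2 : ℂ) ^ d ≠ 0 := pow_ne_zero _ two_ne_zero
  field_simp

lemma stab_S {T : Tensor d} (hT : T ∈ StabStates d) : S (fun x : Fin d → ZMod 2 => T x) := by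
  obtain ⟨U, hU, rfl⟩ := hT
  refine (column_S hU).congr fun x => ?_
  refine (Finset.sum_eq_single (0 : Fin d → ZMod 2) ?_ ?_).trans ?_
  · intro y _ hy
    have : ∃ i, y i ≠ 0 := by
      by_contra hcon
      push Not at hcon
      exact hy (funext hcon)
    obtain ⟨i, hi⟩ := this
    have h1 : tensorPower ![1, 0] d y = 0 := by
      refine Finset.prod_eq_zero (Finset.mem_univ i) ?_
      have hy1 : y i = 1 := by
        rcases zmod2_cases (y i) with h | h
        · exact absurd h hi
        · exact h
      rw [hy1]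
      rfl
    exact (congrArg (U x y * ·) h1).trans (mul_zero _)
  · intro h
    exact absurd (Finset.mem_univ _) h
  · have h1 : tensorPower ![1, 0] d (0 : Fin d → ZMod 2) = 1 :=
      Finset.prod_eq_one fun i _ => rfl
    exact (congrArg (U x (0 : Fin d → ZMod 2) * ·) h1).trans (mul_one _)

/-! ### the computational basis consists of stabilizer states -/

lemma P1_star {M : Matrix (Fin 2) (Fin 2) ℂ} (hM : M ∈ P1) : star M ∈ P1 := by
  induction hM using Submonoid.closure_induction with
  | mem M hM =>
    rcases hM with rfl | rfl | rfl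
    · have : star pauliX = pauliX := by
        ext i j
        fin_cases i <;> fin_cases j <;> simp [pauliX, Matrix.star_apply]
      rw [this]
      exact X_mem
    · have : star pauliY = pauliY := by
        ext i j
        fin_cases i <;> fin_cases j <;> simp [pauliY, Matrix.star_apply]
      rw [this]
      exact Y_mem
    · have : star pauliZ = pauliZ := by
        ext i j
        fin_cases i <;> fin_cases j <;> simp [pauliZ, Matrix.star_apply]
      rw [this]
      exact Z_mem
  | one => simp
  | mul M N _ _ hM hN =>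
    rw [star_mul]
    exact P1.mul_mem hN hM

lemma pauli_mul {M N : Op d} (hM : M ∈ PauliGroup d) (hN : N ∈ PauliGroup d) :
    M * N ∈ PauliGroup d := by
  classical
  obtain ⟨σ, h1, h2⟩ := hM
  obtain ⟨τ, h3, h4⟩ := hN
  refine ⟨fun i => σ i * τ i, fun i => P1.mul_mem (h1 i) (h3 i), fun x z => ?_⟩
  rw [Matrix.mul_apply]
  simp only [Matrix.mul_apply, h2, h4, ← Finset.prod_mul_distrib]
  rw [Finset.prod_univ_sum, Fintype.piFinset_univ]

lemma XZ_clifford (a : Fin d → ZMod 2) : XZ a 0 ∈ CliffordGroup d := by
  have hsq : XZ a 0 * XZ a 0 = 1 := by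
    rw [XZ_mul _ _ _ _ (by simp), ZModModule.add_self, add_zero, XZ_zero]
  have hstar : star (XZ a 0) = XZ a 0 := by
    suffices key : ∀ x y : Fin d → ZMod 2, star (Wf 0 a 0 y x) = Wf 0 a 0 x y from
      funext fun x => funext fun y => key x y
    intro x y
    unfold Wf
    by_cases h : y = x + a
    · have h' : x = y + a := by
        have h1 := congrArg (· + a) h
        have h2 : x + a + a = x := by rw [add_assoc, ZModModule.add_self, add_zero]
        exact (h1.trans h2).symm
      refine (congrArg star (if_pos h)).trans (Eq.trans ?_ (if_pos h').symm)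
      simp
    · have h' : ¬ x = y + a := by
        intro h'
        apply h
        have h1 := congrArg (· + a) h'
        have h2 : y + a + a = y := by rw [add_assoc, ZModModule.add_self, add_zero]
        exact (h1.trans h2).symm
      refine (congrArg star (if_neg h)).trans (Eq.trans ?_ (if_neg h').symm)
      simp
  refine ⟨?_, fun P => ?_⟩
  · rw [Matrix.mem_unitaryGroup_iff, hstar, hsq]
  · rw [hstar]
    constructor
    · intro h
      have h1 := pauli_mul (pauli_mul (XZ_mem a 0) h) (XZ_mem a 0)
      have h2 : XZ a 0 * (XZ a 0 * P * XZ a 0) * XZ a 0 = P := by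
        calc XZ a 0 * (XZ a 0 * P * XZ a 0) * XZ a 0
            = (XZ a 0 * XZ a 0) * P * (XZ a 0 * XZ a 0) := by simp only [Matrix.mul_assoc]
          _ = P := by rw [hsq, Matrix.one_mul, Matrix.mul_one]
      rwa [h2] at h1
    · intro h
      exact pauli_mul (pauli_mul (XZ_mem a 0) h) (XZ_mem a 0)

/-- The vectors of the computational basis are stabilizer states. -/
lemma basis_stab' (a : Fin d → ZMod 2) :
    (Pi.single (M := fun _ => ℂ) (i := (a : Fin d → Fin 2)) 1 : Tensor d) ∈ StabStates d := by
  refine ⟨XZ a 0, XZ_clifford a, ?_⟩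
  have key : ∀ x : Fin d → ZMod 2, (XZ a 0).mulVec (tensorPower ![1, 0] d) x =
      if x = a then 1 else 0 := by
    intro x
    refine (Finset.sum_eq_single (0 : Fin d → ZMod 2) ?_ ?_).trans ?_
    · intro y _ hy
      have : ∃ i, y i ≠ 0 := by
        by_contra hcon
        push Not at hcon
        exact hy (funext hcon)
      obtain ⟨i, hi⟩ := this
      have h1 : tensorPower ![1, 0] d y = 0 := by
        refine Finset.prod_eq_zero (Finset.mem_univ i) ?_
        have hy1 : y i = 1 := by
          rcases zmod2_cases (y i) with h | h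
          · exact absurd h hi
          · exact h
        rw [hy1]
        rfl
      exact (congrArg (XZ a 0 x y * ·) h1).trans (mul_zero _)
    · intro h
      exact absurd (Finset.mem_univ _) h
    · have h1 : tensorPower ![1, 0] d (0 : Fin d → ZMod 2) = 1 :=
        Finset.prod_eq_one fun i _ => rfl
      refine (congrArg (XZ a 0 x (0 : Fin d → ZMod 2) * ·) h1).trans ((mul_one _).trans ?_)
      change Wf 0 a 0 x 0 = _
      unfold Wf
      by_cases h : x = a
      · rw [if_pos (by rw [zero_add]; exact h), if_pos h]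
        simp
      · rw [if_neg (by rw [zero_add]; exact h), if_neg h]
  refine funext fun x => ?_
  by_cases h : x = a
  · exact (Eq.trans (by rw [h]; exact Pi.single_eq_same _ _) ((key x).trans (if_pos h)).symm)
  · exact (Pi.single_eq_of_ne h _).trans ((key x).trans (if_neg h)).symm

lemma basis_stab (a : Fin d → Fin 2) : (Pi.single a 1 : Tensor d) ∈ StabStates d :=
  basis_stab' a

/-- Every tensor is a linear combination of stabilizer states. -/
lemma exists_decomp (T : Tensor d) : ∃ (r : ℕ) (α : Fin r → ℂ) (S : Fin r → Tensor d),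
    (∀ i, S i ∈ StabStates d) ∧ T = ∑ i, α i • S i := by
  let e := (Fintype.equivFin (Fin d → Fin 2)).symm
  refine ⟨Fintype.card (Fin d → Fin 2), fun i => T (e i), fun i => Pi.single (e i) 1,
    fun i => basis_stab _, ?_⟩
  rw [Equiv.sum_comp e (fun x => T x • (Pi.single x 1 : Tensor d))]
  funext x
  rw [Finset.sum_apply, Finset.sum_eq_single x]
  · simp
  · intro y _ hy
    simp [Ne.symm hy]
  · intro h
    exact absurd (Finset.mem_univ _) h

/-- The minimum in the definition of the stabilizer rank is attained. -/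
lemma stabR_spec (T : Tensor d) : ∃ (α : Fin (stabR T) → ℂ) (S : Fin (stabR T) → Tensor d),
    (∀ i, S i ∈ StabStates d) ∧ T = ∑ i, α i • S i :=
  Nat.sInf_mem (s := {r : ℕ | ∃ (α : Fin r → ℂ) (S : Fin r → Tensor d),
    (∀ i, S i ∈ StabStates d) ∧ T = ∑ i, α i • S i}) (exists_decomp T)

/-- The lower bound. -/
theorem lower {k d : ℕ} (hd : 66 * 2 ^ k ≤ d + 66) :
    4 ^ k ≤ stabR (tensorPower vee d) * (2 * k + 1) ^ 2 := by
  obtain ⟨α, S, h1, h2⟩ := stabR_spec (tensorPower vee d)
  refine main_count hd (α := α) (s := fun i x => S i x) (fun i => stab_S (h1 i)) ?_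
  intro z
  have h3 := congrFun h2 z
  have h4 : tensorPower vee d z = ∏ j, wt (z j) := by
    refine Finset.prod_congr rfl fun j _ => ?_
    rcases zmod2_cases (z j) with h | h
    · rw [h, wt_zero]
      rfl
    · rw [h, wt_one]
      rfl
  rw [← h4, h3]
  refine (Finset.sum_apply z _ _).trans ?_
  rfl

end Pool.Agent.P8H92.Stab
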